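import Pool.Agent.Helper53.GP.Symm
import Pool.Agent.Helper53.GP.BadZ
import Pool.Agent.Helper84.LD.Dil

/-!
# Coordinate permutations and reflections (project TIE, MP_409f7f_co)
-/

set_option autoImplicit false

namespace Pool.Agent.Helper28.XS

open Pool.Agent.Helper17.UF Pool.Agent.Helper84.LD Pool.Agent.Helper53.GP
  Pool.Agent.Helper16.LD Relation

/-- A symmetry of the cubic lattice that fixes the origin and is an involution, with its action on
lattice points. -/
structure CSym extends LSym where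
  gp : Cube ≃ Cube
  corner : ∀ (v : Cube) (a b c : Dir), Dir.perp a b = true → Dir.perp a c = true →
    Dir.perp b c = true → g v + (up (d a) + up (d b) + up (d c)) = gp (v + (up a + up b + up c))
  inv : ∀ v, g (g v) = v
  dinv : ∀ t, d (d t) = t
  gpinv : ∀ v, gp (gp v) = v
  dneg : ∀ t, d t.neg = (d t).neg
  block : ∀ v, fl 4 (g v) = g (fl 4 v)
  ax : Fin 3 → Fin 3
  hax : ∀ t, (d t).axis = ax t.axis
  crs : ∀ a b, Dir.perp a b = true → d (Dir.cross a b) = (Dir.cross (d a) (d b)).neg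

/-- `P` has a screw with middle axis `m`: around a lattice point the cubes of `P` are
`c, c + s1, c + s1 + s2, c + s1 + s2 + s3` with `s2` parallel to the axis `m` and
`s3 = s1 × s2` (`r = true`) or `s3 = -(s1 × s2)`. -/
def Scr (P : Finset Cube) (m : Fin 3) (r : Bool) : Prop :=
  ∃ (c : Cube) (s1 s2 s3 : Dir), s2.axis = m ∧ Dir.perp s1 s2 = true ∧
    s3 = (if r then Dir.cross s1 s2 else (Dir.cross s1 s2).neg) ∧
    c ∈ P ∧ c + s1.vec ∈ P ∧ c + s1.vec + s2.vec ∈ P ∧ c + s1.vec + s2.vec + s3.vec ∈ P ∧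
    c + s2.vec ∉ P ∧ c + s3.vec ∉ P ∧ c + s2.vec + s3.vec ∉ P ∧ c + s1.vec + s3.vec ∉ P

/-- No lattice point lies on squares of the boundary with opposite normals parallel to `a`. -/
def NoOppA (P : Finset Cube) (a : Fin 3) : Prop := ∀ t : Dir, t.axis = a → NoOpp P t

namespace CSym

variable (s : CSym) {P : Finset Cube}

/-- The image of a polycube. -/
def im (P : Finset Cube) : Finset Cube := P.map s.g.toEmbedding

theorem mem_im {v : Cube} : s.g v ∈ s.im P ↔ v ∈ P := by
  unfold im
  rw [Finset.mem_map_equiv, Equiv.symm_apply_apply]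

theorem im_im (P : Finset Cube) : s.im (s.im P) = P := by
  ext v
  rw [← s.inv v, s.mem_im, s.mem_im, s.inv]

theorem g_add3 (v : Cube) (a b : Dir) : s.g (v + a.vec + b.vec) = s.g v + (s.d a).vec + (s.d b).vec := by
  rw [s.hg, s.hg]

theorem isFace_iff {A : Face} : IsFace (s.im P) (s.f A) ↔ IsFace P A := s.isFace_f P A

theorem f_f (A : Face) : s.f (s.f A) = A := by
  unfold LSym.f
  simp only
  rw [s.inv, s.dinv]

/-- Neighbours. -/
theorem nbr_f (A : Face) (t : Dir) :
    nbr (s.im P) (s.f A) (s.d t) = (s.f (nbr P A t).1, s.d (nbr P A t).2) := by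
  obtain ⟨v, d⟩ := A
  have e1 : s.g v + (s.d t).vec + (s.d d).vec ∈ s.im P ↔ v + t.vec + d.vec ∈ P := by
    rw [← s.g_add3, s.mem_im]
  have e2 : s.g v + (s.d t).vec ∈ s.im P ↔ v + t.vec ∈ P := by
    rw [← s.hg, s.mem_im]
  unfold nbr LSym.f
  simp only
  by_cases h1 : v + t.vec + d.vec ∈ P
  · rw [if_pos (e1.2 h1), if_pos h1, ← s.g_add3, s.dneg, s.dneg]
  · rw [if_neg (fun h => h1 (e1.1 h)), if_neg h1]
    by_cases h2 : v + t.vec ∈ P
    · rw [if_pos (e2.2 h2), if_pos h2, ← s.hg, s.dneg]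
    · rw [if_neg (fun h => h2 (e2.1 h)), if_neg h2]

theorem man_im (h : Man P) : Man (s.im P) := by
  intro y hy u v huv h1 h2 h3
  have hy' : s.g y ∈ P := by rw [← s.mem_im, s.inv]; exact hy
  have k1 : s.g y + (s.d u).vec = s.g (y + u.vec) := (s.hg y u).symm
  have k2 : s.g y + (s.d v).vec = s.g (y + v.vec) := (s.hg y v).symm
  have k3 : s.g y + (s.d u).vec + (s.d v).vec = s.g (y + u.vec + v.vec) := (s.g_add3 y u v).symm
  refine h _ hy' (s.d u) (s.d v) (by rw [s.hperp]; exact huv) ?_ ?_ ?_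
  · rw [k1, ← s.mem_im, s.inv]; exact h1
  · rw [k2, ← s.mem_im, s.inv]; exact h2
  · rw [k3, ← s.mem_im, s.inv]; exact h3

theorem surfConn_im (h : SurfConn P) : SurfConn (s.im P) := by
  intro A B hA hB
  have hA' : IsFace P (s.f A) := by rw [← s.isFace_iff, s.f_f]; exact hA
  have hB' : IsFace P (s.f B) := by rw [← s.isFace_iff, s.f_f]; exact hB
  have key : ReflTransGen (fun C D => ∃ t, Dir.perp C.2 t = true ∧ D = (nbr (s.im P) C t).1)
      (s.f (s.f A)) (s.f (s.f B)) := by
    refine (h _ _ hA' hB').lift s.f ?_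
    rintro C D ⟨t, h1, rfl⟩
    refine ⟨s.d t, ?_, ?_⟩
    · rw [← h1]; exact s.hperp _ _
    · rw [s.nbr_f]
  rwa [s.f_f, s.f_f] at key

theorem card_faceF_im : (faceF (s.im P)).card = (faceF P).card := by
  refine Finset.card_bij (fun A _ => s.f A) ?_ ?_ ?_
  · intro A hA
    rw [mem_faceF] at hA ⊢
    rw [← s.isFace_iff, s.f_f]
    exact hA
  · intro A _ B _ h
    rw [← s.f_f A, h, s.f_f]
  · intro A hA
    refine ⟨s.f A, ?_, s.f_f A⟩
    rw [mem_faceF] at hA ⊢
    rw [s.isFace_iff]
    exact hA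

theorem corner_mem {A : Face} {v : Cube} (h : v ∈ corners A) : s.gp v ∈ corners (s.f A) := by
  rw [mem_corners] at h
  obtain ⟨t, h1, rfl⟩ := h
  have key : ∀ a b : Dir, Dir.perp a b = true → Dir.perp a (Dir.cross a b) = true ∧
      Dir.perp b (Dir.cross a b) = true := by decide
  obtain ⟨k1, k2⟩ := key _ _ h1
  have e : s.gp (cnr A t (Dir.cross A.2 t)) = cnr (s.f A) (s.d t) (s.d (Dir.cross A.2 t)) := by
    unfold cnr
    rw [← s.corner _ _ _ _ h1 k1 k2]
    rfl
  have p1 : Dir.perp (s.d A.2) (s.d t) = true := by rw [s.hperp]; exact h1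
  have p2 : Dir.perp (s.d A.2) (s.d (Dir.cross A.2 t)) = true := by rw [s.hperp]; exact k1
  have p3 : Dir.perp (s.d t) (s.d (Dir.cross A.2 t)) = true := by rw [s.hperp]; exact k2
  have key2 : ∀ a b c : Dir, Dir.perp a b = true → Dir.perp a c = true → Dir.perp b c = true →
      c = Dir.cross a b ∨ b = Dir.cross a c := by decide
  rw [mem_corners]
  rcases key2 _ _ _ p1 p2 p3 with h | h
  · refine ⟨s.d t, p1, ?_⟩
    rw [e, h]
    rfl
  · refine ⟨s.d (Dir.cross A.2 t), p2, ?_⟩
    rw [e]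
    change cnr (s.f A) (s.d (Dir.cross A.2 t)) (Dir.cross (s.d A.2) (s.d (Dir.cross A.2 t))) = _
    rw [← h, cnr_comm]

theorem mem_vertF_im {v : Cube} (h : v ∈ vertF P) : s.gp v ∈ vertF (s.im P) := by
  rw [Pool.Agent.Helper84.LD.mem_vertF] at h ⊢
  obtain ⟨A, hA, hv⟩ := h
  exact ⟨s.f A, s.isFace_iff.2 hA, s.corner_mem hv⟩

theorem card_vertF_im : (vertF (s.im P)).card = (vertF P).card := by
  refine Finset.card_bij (fun v _ => s.gp v) ?_ ?_ ?_
  · intro v hv
    have := s.mem_vertF_im hv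
    rw [s.im_im] at this
    exact this
  · intro v _ w _ h
    exact s.gp.injective h
  · intro v hv
    exact ⟨s.gp v, s.mem_vertF_im hv, s.gpinv v⟩

theorem euler_im (hM : Man P) (h : (vertF P).card + (faceF P).card = (edgeF P).card + 2) :
    (vertF (s.im P)).card + (faceF (s.im P)).card = (edgeF (s.im P)).card + 2 := by
  have h1 := card_edgeF hM
  have h2 := card_edgeF (s.man_im hM)
  rw [s.card_vertF_im, s.card_faceF_im] at *
  omega

theorem onF_im {t : Dir} {v : Cube} (h : OnF P t v) : OnF (s.im P) (s.d t) (s.gp v) := by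
  obtain ⟨A, a, b, hA, rfl, h1, h2, h3, rfl⟩ := h
  refine ⟨s.f A, s.d a, s.d b, s.isFace_iff.2 hA, rfl, ?_, ?_, ?_, ?_⟩
  · change Dir.perp (s.d A.2) (s.d a) = true
    rw [s.hperp]; exact h1
  · change Dir.perp (s.d A.2) (s.d b) = true
    rw [s.hperp]; exact h2
  · rw [s.hperp]; exact h3
  · have hpp : ∀ t : Dir, pp t = up t := by
      intro t; cases t <;> rfl
    unfold crn
    simp only [hpp]
    have := s.corner A.1 A.2 a b h1 h2 h3
    have e1 : A.1 + up A.2 + up a + up b = A.1 + (up A.2 + up a + up b) := by abel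
    rw [e1, ← this]
    change s.g A.1 + up (s.d A.2) + up (s.d a) + up (s.d b) = _
    abel

theorem noOpp_im {t : Dir} (h : NoOpp P t) : NoOpp (s.im P) (s.d t) := by
  intro v h1 h2
  have k1 := s.onF_im h1
  have k2 := s.onF_im h2
  rw [s.im_im, s.dinv] at k1
  rw [s.im_im, ← s.dneg, s.dinv] at k2
  exact h _ k1 k2

theorem ax_ax (a : Fin 3) : s.ax (s.ax a) = a := by
  have key : ∀ a : Fin 3, ∃ t : Dir, t.axis = a := by decide
  obtain ⟨t, rfl⟩ := key a
  rw [← s.hax, ← s.hax, s.dinv]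

theorem noOppA_im {a : Fin 3} (h : NoOppA P a) : NoOppA (s.im P) (s.ax a) := by
  intro t ht
  have h1 : (s.d t).axis = a := by rw [s.hax, ht, s.ax_ax]
  have h2 := s.noOpp_im (h _ h1)
  rwa [s.dinv] at h2

theorem scr_im {m : Fin 3} {r : Bool} (h : Scr P m r) : Scr (s.im P) (s.ax m) (!r) := by
  obtain ⟨c, s1, s2, s3, h1, h2, h3, k1, k2, k3, k4, k5, k6, k7, k8⟩ := h
  have e3 : s.d s3 = (if (!r) = true then Dir.cross (s.d s1) (s.d s2)
      else (Dir.cross (s.d s1) (s.d s2)).neg) := by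
    rw [h3]
    cases r
    · simp only [Bool.false_eq_true, if_false, Bool.not_false, if_true]
      rw [s.dneg, s.crs _ _ h2, Dir.neg_neg]
    · simp only [if_true, Bool.not_true, Bool.false_eq_true, if_false]
      exact s.crs _ _ h2
  have g1 : ∀ a : Dir, s.g c + (s.d a).vec = s.g (c + a.vec) := fun a => (s.hg c a).symm
  have g2 : ∀ a b : Dir, s.g c + (s.d a).vec + (s.d b).vec = s.g (c + a.vec + b.vec) :=
    fun a b => (s.g_add3 c a b).symm
  have g3 : s.g c + (s.d s1).vec + (s.d s2).vec + (s.d s3).vec =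
      s.g (c + s1.vec + s2.vec + s3.vec) := by rw [s.hg, s.hg, s.hg]
  refine ⟨s.g c, s.d s1, s.d s2, s.d s3, by rw [s.hax, h1], by rw [s.hperp]; exact h2, e3, ?_, ?_,
    ?_, ?_, ?_, ?_, ?_, ?_⟩
  · exact s.mem_im.2 k1
  · rw [g1]; exact s.mem_im.2 k2
  · rw [g2]; exact s.mem_im.2 k3
  · rw [g3]; exact s.mem_im.2 k4
  · rw [g1]; exact fun h => k5 (s.mem_im.1 h)
  · rw [g1]; exact fun h => k6 (s.mem_im.1 h)
  · rw [g2]; exact fun h => k7 (s.mem_im.1 h)
  · rw [g2]; exact fun h => k8 (s.mem_im.1 h)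

theorem dil_im (Q : Finset Cube) : dil 4 (s.im Q) = s.im (dil 4 Q) := by
  ext v
  rw [mem_dil (by norm_num), ← s.inv v, s.mem_im, mem_dil (by norm_num), s.block, s.mem_im]

theorem unfolding_im (h : HasEdgeUnfolding (s.im P)) : HasEdgeUnfolding P :=
  HasEdgeUnfolding.of_map s.toLSym s.inv h

end CSym


/-! ### The three generators -/

/-- The exchange of the first and the third coordinate. -/
noncomputable def cXZ : CSym where
  toLSym := symXZ
  gp := symXZ.g
  corner := by
    intro v a b c _ _ _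
    cases a <;> cases b <;> cases c <;> rfl
  inv := fun _ => rfl
  dinv := by intro t; cases t <;> rfl
  gpinv := fun _ => rfl
  dneg := by intro t; cases t <;> rfl
  block := fun _ => rfl
  ax := fun a => if a = 0 then 2 else if a = 1 then 1 else 0
  hax := by intro t; cases t <;> rfl
  crs := by intro a b; cases a <;> cases b <;> decide

/-- The exchange of the second and the third coordinate. -/
noncomputable def cYZ : CSym where
  toLSym := symYZ
  gp := symYZ.g
  corner := by
    intro v a b c _ _ _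
    cases a <;> cases b <;> cases c <;> rfl
  inv := fun _ => rfl
  dinv := by intro t; cases t <;> rfl
  gpinv := fun _ => rfl
  dneg := by intro t; cases t <;> rfl
  block := fun _ => rfl
  ax := fun a => if a = 0 then 0 else if a = 1 then 2 else 1
  hax := by intro t; cases t <;> rfl
  crs := by intro a b; cases a <;> cases b <;> decide

/-- The central inversion. -/
noncomputable def symInv : LSym where
  g := ⟨fun v => (-1 - v.1, -1 - v.2.1, -1 - v.2.2), fun v => (-1 - v.1, -1 - v.2.1, -1 - v.2.2),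
    fun v => by ext <;> simp, fun v => by ext <;> simp⟩
  d := ⟨Dir.neg, Dir.neg, fun t => Dir.neg_neg t, fun t => Dir.neg_neg t⟩
  G := (LinearIsometryEquiv.neg ℝ).toIsometryEquiv
  hg := by
    intro v t
    cases t <;> ext <;> simp [Dir.vec, Dir.neg] <;> ring
  hperp := by
    intro a b
    cases a <;> cases b <;> rfl
  hG := by
    intro v
    ext x
    constructor
    · rintro ⟨y, hy, rfl⟩
      simp only [unitCube, Set.mem_setOf_eq, Equiv.coe_fn_mk] at hy ⊢
      have h : ∀ i, ((LinearIsometryEquiv.neg ℝ : E3 ≃ₗᵢ[ℝ] E3).toIsometryEquiv y) i = - y i := by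
        intro i; rfl
      rw [h, h, h]
      push_cast
      obtain ⟨⟨a, b⟩, ⟨c, d⟩, e, f⟩ := hy
      refine ⟨⟨by linarith, by linarith⟩, ⟨by linarith, by linarith⟩, by linarith, by linarith⟩
    · intro hx
      refine ⟨-x, ?_, ?_⟩
      · simp only [unitCube, Set.mem_setOf_eq, Equiv.coe_fn_mk] at hx ⊢
        push_cast at hx
        obtain ⟨⟨a, b⟩, ⟨c, d⟩, e, f⟩ := hx
        have h : ∀ i, (-x : E3) i = - x i := by
          intro i; rfl
        rw [h, h, h]
        refine ⟨⟨by linarith, by linarith⟩, ⟨by linarith, by linarith⟩, by linarith, by linarith⟩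
      · exact neg_neg x

noncomputable def cInv : CSym where
  toLSym := symInv
  gp := ⟨fun v => -v, fun v => -v, fun v => neg_neg v, fun v => neg_neg v⟩
  corner := by
    intro v a b c h1 h2 h3
    obtain ⟨x, y, z⟩ := v
    cases a <;> cases b <;> first | (exact absurd h1 (by decide)) | skip
    all_goals
      cases c <;> first | (exact absurd h2 (by decide)) | (exact absurd h3 (by decide)) | skip
    all_goals
      change ((-1 - x, -1 - y, -1 - z) : Cube) + _ = -((x, y, z) + _)
      ext <;> simp [symInv, up, Dir.neg] <;> ring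
  inv := by
    intro v
    ext <;> simp [symInv]
  dinv := by intro t; cases t <;> rfl
  gpinv := fun v => neg_neg v
  dneg := by intro t; cases t <;> rfl
  block := by
    intro v
    have key : ∀ a : ℤ, (-1 - a) / 4 = -1 - a / 4 := by intro a; omega
    change ((-1 - v.1) / 4, (-1 - v.2.1) / 4, (-1 - v.2.2) / 4) =
      (-1 - v.1 / 4, -1 - v.2.1 / 4, -1 - v.2.2 / 4)
    rw [key, key, key]
  ax := id
  hax := by intro t; cases t <;> rfl
  crs := by intro a b; cases a <;> cases b <;> decide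

/-- The statement for the axes `a`, `b` and the handedness `r`. -/
def Thm (a b : Fin 3) (r : Bool) : Prop :=
  ∀ Q : Finset Cube, Man Q → SurfConn Q →
    (vertF Q).card + (faceF Q).card = (edgeF Q).card + 2 → NoOppA Q a → ¬ Scr Q b r →
    HasEdgeUnfolding (dil 4 Q)

theorem Thm.sym (s : CSym) {a b : Fin 3} {r : Bool} (h : Thm a b r) :
    Thm (s.ax a) (s.ax b) (!r) := by
  intro Q h1 h2 h3 h4 h5
  apply s.unfolding_im
  rw [← s.dil_im]
  refine h _ (s.man_im h1) (s.surfConn_im h2) (s.euler_im h1 h3) ?_ ?_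
  · have := s.noOppA_im h4
    rwa [s.ax_ax] at this
  · intro hc
    have := s.scr_im hc
    rw [s.im_im] at this
    exact h5 this

/-- All axes and both kinds of handedness. -/
theorem thm_all (h : Thm 0 2 true) {a b : Fin 3} (hab : a ≠ b) (r : Bool) : Thm a b r := by
  have hi : ∀ {a b : Fin 3} {r : Bool}, Thm a b r → Thm a b (!r) := fun h => h.sym cInv
  have hxz : ∀ {a b : Fin 3} {r : Bool}, Thm a b r → Thm (cXZ.ax a) (cXZ.ax b) (!r) :=
    fun h => h.sym cXZ
  have hyz : ∀ {a b : Fin 3} {r : Bool}, Thm a b r → Thm (cYZ.ax a) (cYZ.ax b) (!r) :=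
    fun h => h.sym cYZ
  have both : ∀ {a b : Fin 3} {r : Bool}, Thm a b r → ∀ r', Thm a b r' := by
    intro a b r h r'
    by_cases e : r' = r
    · rw [e]; exact h
    · have key : ∀ x y : Bool, x ≠ y → x = !y := by decide
      rw [key _ _ e]; exact hi h
  have t02 := both h
  have t20 : ∀ r, Thm 2 0 r := both (hxz h)
  have t01 : ∀ r, Thm 0 1 r := both (hyz h)
  have t10 : ∀ r, Thm 1 0 r := both (hyz (t20 true))
  have t21 : ∀ r, Thm 2 1 r := both (hxz (t01 true))
  have t12 : ∀ r, Thm 1 2 r := both (hxz (t10 true))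
  fin_cases a <;> fin_cases b <;> first | (exact absurd rfl hab) | skip
  · exact t01 r
  · exact t02 r
  · exact t10 r
  · exact t12 r
  · exact t20 r
  · exact t21 r

/-- A screw with the vertical middle axis can be read from the other end. -/
theorem badZ_of_scr {P : Finset Cube} (h : Scr P 2 true) : BadZ P := by
  obtain ⟨c, s1, s2, s3, h1, h2, h3, k1, k2, k3, k4, k5, k6, k7, k8⟩ := h
  simp only [if_true] at h3
  have hax : s1.axis = 0 ∨ s1.axis = 1 := by
    have key : ∀ a b : Dir, b.axis = 2 → Dir.perp a b = true → a.axis = 0 ∨ a.axis = 1 := by decide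
    exact key _ _ h1 h2
  rcases hax with ha | ha
  · subst h3
    exact ⟨c, s1, s2, ha, h1, k1, k2, k3, k4, k5, k6, k7, k8⟩
  · have key : ∀ a b : Dir, b.axis = 2 → a.axis = 1 → (Dir.cross a b).neg.axis = 0 ∧
        Dir.cross (Dir.cross a b).neg b.neg = a.neg := by decide
    obtain ⟨q1, q2⟩ := key _ _ h1 ha
    refine ⟨c + s1.vec + s2.vec + s3.vec, s3.neg, s2.neg, by rw [h3]; exact q1,
      by rw [neg_axis]; exact h1, ?_⟩
    have q3 : Dir.cross s3.neg s2.neg = s1.neg := by rw [h3]; exact q2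
    rw [q3]
    simp only [Dir.vec_neg]
    have e1 : c + s1.vec + s2.vec + s3.vec + -s3.vec = c + s1.vec + s2.vec := by abel
    have e2 : c + s1.vec + s2.vec + s3.vec + -s3.vec + -s2.vec = c + s1.vec := by abel
    have e3 : c + s1.vec + s2.vec + s3.vec + -s3.vec + -s2.vec + -s1.vec = c := by abel
    have e4 : c + s1.vec + s2.vec + s3.vec + -s2.vec = c + s1.vec + s3.vec := by abel
    have e5 : c + s1.vec + s2.vec + s3.vec + -s1.vec = c + s2.vec + s3.vec := by abel
    have e6 : c + s1.vec + s3.vec + -s1.vec = c + s3.vec := by abel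
    have e7 : c + s1.vec + s2.vec + -s1.vec = c + s2.vec := by abel
    rw [e3, e2, e1, e4, e5, e6, e7]
    exact ⟨k4, k3, k2, k1, k8, k7, k6, k5⟩

end Pool.Agent.Helper28.XS
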