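import Pool.Agent.Helper84.LD.BDefs

/-!
# Coloured direction fields with back steps are ladders (project XS, MP_409f7f_co)

As `IsField` of `Pool.Agent.Helper84.LD.Col`, but the colours need not increase along the lateral
sides (`IsBField` of `Pool.Agent.Helper84.LD.BDefs`). A face with a white-black west side (south to
north) is left by the curve to the west, a face with a white-black east side is entered by the
curve from the east. The columns are cut at the north side of the first and at the south side of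
the second kind of faces.
-/

set_option autoImplicit false

namespace Pool.Agent.Helper28.XS

open Pool.Agent.Helper17.UF Pool.Agent.Helper84.LD Relation

/-- The curve leaves the face to the east. -/
def FOut (σ : Bool) (e : Face → Dir) (c : Cube → Bool) (A : Face) : Prop :=
  c (cr σ e A Hd.S Hd.E) = false ∧ c (cr σ e A Hd.N Hd.E) = true

/-- The curve enters the face from the west. -/
def FIn (σ : Bool) (e : Face → Dir) (c : Cube → Bool) (A : Face) : Prop :=
  c (cr σ e A Hd.S Hd.W) = false ∧ c (cr σ e A Hd.N Hd.W) = true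

/-- In one canonical column there are not both entries from the east and exits to the west. -/
def Excl (P : Finset Cube) (σ : Bool) (e : Face → Dir) (c : Cube → Bool) : Prop :=
  ∀ A B, IsFace P A → IsFace P B → BackIn σ e c A → BackOut σ e c B →
    ¬ EqvGen (Up P σ e (UU P σ e)) A B

variable {P : Finset Cube} {σ : Bool} {e : Face → Dir} {c : Cube → Bool}

end Pool.Agent.Helper28.XS

namespace Pool.Agent.Helper84.LD.IsBField

open Pool.Agent.Helper17.UF Pool.Agent.Helper28.XS Relation

variable {P : Finset Cube} {σ : Bool} {e : Face → Dir} {c : Cube → Bool}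

theorem xs_north (H : IsBField P σ e c) {A : Face} (hA : IsFace P A) (hc : Cmp P σ e A Hd.N) :
    cr σ e (nb P σ e A Hd.N) Hd.S Hd.E = cr σ e A Hd.N Hd.E ∧
    cr σ e (nb P σ e A Hd.N) Hd.S Hd.W = cr σ e A Hd.N Hd.W :=
  side_corners (H.perp A hA) (H.perp _ (isFace_nbr hA)) hc

theorem xs_east (H : IsBField P σ e c) {A : Face} (hA : IsFace P A) (hc : Cmp P σ e A Hd.E) :
    cr σ e (nb P σ e A Hd.E) Hd.S Hd.W = cr σ e A Hd.S Hd.E ∧
    cr σ e (nb P σ e A Hd.E) Hd.N Hd.W = cr σ e A Hd.N Hd.E := by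
  obtain ⟨s1, s2⟩ := side_corners (H.perp A hA) (H.perp _ (isFace_nbr hA)) hc
  simp only [Hd.left, Hd.opp] at s1 s2
  rw [cr_comm σ e _ Hd.W Hd.S, cr_comm σ e A Hd.E Hd.S] at s1
  rw [cr_comm σ e _ Hd.W Hd.N, cr_comm σ e A Hd.E Hd.N] at s2
  exact ⟨s1, s2⟩

theorem xs_west (H : IsBField P σ e c) {A : Face} (hA : IsFace P A) (hc : Cmp P σ e A Hd.W) :
    cr σ e (nb P σ e A Hd.W) Hd.S Hd.E = cr σ e A Hd.S Hd.W ∧
    cr σ e (nb P σ e A Hd.W) Hd.N Hd.E = cr σ e A Hd.N Hd.W := by
  obtain ⟨k1, k2⟩ := Cmp.back hA (H.perp A hA) hc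
  simp only [Hd.opp] at k1 k2
  obtain ⟨e1, e2⟩ := H.xs_east (A := nb P σ e A Hd.W) (isFace_nbr hA) k1
  rw [k2] at e1 e2
  exact ⟨e1.symm, e2.symm⟩

/-- One step down. -/
theorem xs_down (H : IsBField P σ e c) {A : Face} (hA : IsFace P A) (hc : Cmp P σ e A Hd.S) :
    Cmp P σ e (nb P σ e A Hd.S) Hd.N ∧ nb P σ e (nb P σ e A Hd.S) Hd.N = A := by
  obtain ⟨k1, k2⟩ := Cmp.back hA (H.perp A hA) hc
  exact ⟨k1, k2⟩

theorem xs_hgt_step (H : IsBField P σ e c) {A : Face} (hA : IsFace P A)
    (hc : Cmp P σ e A Hd.N) : hgt P σ e A = hgt P σ e (nb P σ e A Hd.N) + 1 := by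
  classical
  have h1 := H.noRing A hA
  have h2 := H.noRing _ (isFace_nbr (t := dA σ e A Hd.N) hA)
  change ∃ k : ℕ, ¬ Cmp P σ e ((fun B => nb P σ e B Hd.N)^[k] (nb P σ e A Hd.N)) Hd.N at h2
  unfold hgt
  rw [dif_pos h1, dif_pos h2]
  refine le_antisymm ?_ ?_
  · refine Nat.find_min' h1 ?_
    rw [Function.iterate_succ_apply]
    exact Nat.find_spec h2
  · have hpos : Nat.find h1 ≠ 0 := by
      intro h0
      have := Nat.find_spec h1
      rw [h0] at this
      exact this hc
    obtain ⟨m, hm⟩ := Nat.exists_eq_succ_of_ne_zero hpos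
    have h3 := Nat.find_spec h1
    rw [hm, Function.iterate_succ_apply] at h3
    have := Nat.find_min' h2 h3
    omega

/-- Going up from a face whose south-east corner is black leads to an exit. -/
theorem xs_exists_out_up (H : IsBField P σ e c) :
    ∀ n : ℕ, ∀ A, IsFace P A → hgt P σ e A = n → c (cr σ e A Hd.S Hd.E) = false →
      ∃ B, IsFace P B ∧ (FOut σ e c B ∨ BackOut σ e c B) ∧
        EqvGen (Up P σ e (UB P σ e c)) A B := by
  intro n
  induction n using Nat.strong_induction_on with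
  | _ n ih =>
    intro A hA hn hc
    by_cases h1 : c (cr σ e A Hd.N Hd.E) = true
    · exact ⟨A, hA, Or.inl ⟨hc, h1⟩, EqvGen.refl _⟩
    · by_cases h2 : BackOut σ e c A
      · exact ⟨A, hA, Or.inr h2, EqvGen.refl _⟩
      · have h3 : Cmp P σ e A Hd.N := by
          by_contra h3
          exact h1 (H.topE A hA h3)
        have hB : IsFace P (nb P σ e A Hd.N) := isFace_nbr hA
        have h4 : ¬ BackIn σ e c (nb P σ e A Hd.N) := by
          intro h4
          have h5 := h4.1
          rw [(H.xs_north hA h3).1] at h5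
          exact h1 h5
        have h5 := H.xs_hgt_step hA h3
        obtain ⟨B, hB1, hB2, hB3⟩ := ih (hgt P σ e (nb P σ e A Hd.N)) (by omega)
          (nb P σ e A Hd.N) hB rfl (by rw [(H.xs_north hA h3).1]; simpa using h1)
        exact ⟨B, hB1, hB2, EqvGen.trans _ _ _ (EqvGen.rel _ _ ⟨⟨hA, h3, h2, h4⟩, rfl⟩) hB3⟩

/-- Every column has a face with black south-east corner or a face entered from the east. -/
theorem xs_exists_bot (H : IsBField P σ e c) :
    ∃ M : ℕ, (∀ A, IsFace P A → hgt P σ e A ≤ M) ∧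
    ∀ n : ℕ, ∀ A, IsFace P A → M - hgt P σ e A = n →
      ∃ B, IsFace P B ∧ (c (cr σ e B Hd.S Hd.E) = false ∨ BackIn σ e c B) ∧
        EqvGen (Up P σ e (UB P σ e c)) A B := by
  obtain ⟨M, hM⟩ := ((finite_faces P).image (hgt P σ e)).bddAbove
  have hM' : ∀ A, IsFace P A → hgt P σ e A ≤ M := fun A hA => hM ⟨A, hA, rfl⟩
  refine ⟨M, hM', ?_⟩
  intro n
  induction n using Nat.strong_induction_on with
  | _ n ih =>
    intro A hA hn
    by_cases h1 : c (cr σ e A Hd.S Hd.E) = false
    · exact ⟨A, hA, Or.inl h1, EqvGen.refl _⟩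
    · by_cases h2 : BackIn σ e c A
      · exact ⟨A, hA, Or.inr h2, EqvGen.refl _⟩
      · have h3 : Cmp P σ e A Hd.S := by
          by_contra h3
          exact h1 (H.botE A hA h3)
        obtain ⟨k1, k2⟩ := H.xs_down hA h3
        have hA' : IsFace P (nb P σ e A Hd.S) := isFace_nbr hA
        have h4 : ¬ BackOut σ e c (nb P σ e A Hd.S) := by
          intro h4
          have h5 := (H.backOut _ hA' h4).2
          have h6 := (H.xs_north hA' k1).1
          rw [k2] at h6
          rw [← h6] at h5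
          exact h1 h5
        have hU : nb P σ e A Hd.S ∈ UB P σ e c := ⟨hA', k1, h4, by rw [k2]; exact h2⟩
        have h5 := H.xs_hgt_step hA' k1
        rw [k2] at h5
        have h6 := hM' _ hA'
        obtain ⟨B, hB, hBc, hAB⟩ := ih (M - hgt P σ e (nb P σ e A Hd.S)) (by omega) _ hA' rfl
        exact ⟨B, hB, hBc, EqvGen.trans _ _ _ (EqvGen.symm _ _ (EqvGen.rel _ _ ⟨hU, k2⟩)) hAB⟩

/-- Every column has an exit. -/
theorem xs_exists_out (H : IsBField P σ e c) (A : Face) (hA : IsFace P A) :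
    ∃ B, IsFace P B ∧ (FOut σ e c B ∨ BackOut σ e c B) ∧
      EqvGen (Up P σ e (UB P σ e c)) A B := by
  obtain ⟨M, -, hb⟩ := H.xs_exists_bot
  obtain ⟨B, hB, hBc, hAB⟩ := hb _ A hA rfl
  rcases hBc with hBc | hBc
  · obtain ⟨D, hD1, hD2, hD3⟩ := H.xs_exists_out_up _ B hB rfl hBc
    exact ⟨D, hD1, hD2, hAB.trans _ _ _ hD3⟩
  · have h1 : Cmp P σ e B Hd.N := by
      by_contra h1
      have := H.topE B hB h1
      rw [hBc.2] at this
      exact absurd this (by decide)
    have h2 : ¬ BackOut σ e c B := by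
      intro h2
      have := (H.backOut B hB h2).1
      rw [hBc.1] at this
      exact absurd this (by decide)
    have h3 : ¬ BackIn σ e c (nb P σ e B Hd.N) := by
      intro h3
      have h4 := h3.1
      rw [(H.xs_north hB h1).1, hBc.2] at h4
      exact absurd h4 (by decide)
    obtain ⟨D, hD1, hD2, hD3⟩ := H.xs_exists_out_up _ (nb P σ e B Hd.N) (isFace_nbr hB) rfl
      (by rw [(H.xs_north hB h1).1]; exact hBc.2)
    exact ⟨D, hD1, hD2, hAB.trans _ _ _ ((EqvGen.rel _ _ ⟨⟨hB, h1, h2, h3⟩, rfl⟩).trans _ _ _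
      hD3)⟩

theorem xs_up_inj (H : IsBField P σ e c) :
    ∀ a b d, Up P σ e (UB P σ e c) a d → Up P σ e (UB P σ e c) b d → a = b := by
  rintro a b d ⟨⟨ha, ha', -, -⟩, h1⟩ ⟨⟨hb, hb', -, -⟩, h2⟩
  have e1 := (Cmp.back ha (H.perp a ha) ha').2
  have e2 := (Cmp.back hb (H.perp b hb) hb').2
  rw [h1] at e1
  rw [h2] at e2
  exact e1.symm.trans e2

/-- Going up in a column: white corners stay white. -/
theorem xs_white_up (H : IsBField P σ e c) {A B : Face}
    (hAB : ReflTransGen (Up P σ e (UB P σ e c)) A B) : A = B ∨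
    ((∃ C ∈ UB P σ e c, nb P σ e C Hd.N = B) ∧
     (c (cr σ e A Hd.N Hd.E) = true → c (cr σ e B Hd.S Hd.E) = true) ∧
     (c (cr σ e A Hd.N Hd.W) = true → c (cr σ e B Hd.S Hd.W) = true)) := by
  induction hAB with
  | refl => exact Or.inl rfl
  | @tail C D h1 h2 ih =>
    right
    obtain ⟨hCU, rfl⟩ := h2
    have hC := hCU.1
    obtain ⟨e1, e2⟩ := H.xs_north hC hCU.2.1
    refine ⟨⟨C, hCU, rfl⟩, ?_, ?_⟩
    · intro h
      rw [e1]
      rcases ih with rfl | ⟨⟨C', hC', hC'e⟩, i1, -⟩
      · exact h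
      · have h3 : ¬ BackIn σ e c C := by
          have := hC'.2.2.2
          rw [hC'e] at this
          exact this
        have h4 := i1 h
        by_contra h5
        exact h3 ⟨h4, by simpa using h5⟩
    · intro h
      rw [e2]
      rcases ih with rfl | ⟨-, -, i2⟩
      · exact h
      · have h4 := i2 h
        by_contra h5
        exact hCU.2.2.1 ⟨h4, by simpa using h5⟩

theorem xs_comparable (H : IsBField P σ e c) {A B : Face} (h : EqvGen (Up P σ e (UB P σ e c)) A B) :
    ReflTransGen (Up P σ e (UB P σ e c)) A B ∨ ReflTransGen (Up P σ e (UB P σ e c)) B A :=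
  eqvGen_comparable up_func H.xs_up_inj h

/-- A face that is left to the west is the top of its column. -/
theorem xs_top_of_bOut {A B : Face} (hA : BackOut σ e c A)
    (hAB : ReflTransGen (Up P σ e (UB P σ e c)) A B) : A = B := by
  rcases ReflTransGen.cases_head hAB with h | ⟨D, h1, -⟩
  · exact h
  · exact absurd hA h1.1.2.2.1

/-- A face that is entered from the east is the bottom of its column. -/
theorem xs_bot_of_bIn {A B : Face} (hA : BackIn σ e c A)
    (hAB : ReflTransGen (Up P σ e (UB P σ e c)) B A) : B = A := by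
  rcases ReflTransGen.cases_tail hAB with h | ⟨D, -, h1⟩
  · exact h.symm
  · obtain ⟨h2, h3⟩ := h1
    have := h2.2.2.2
    rw [h3] at this
    exact absurd hA this

/-- A column has only one exit. -/
theorem xs_uniq_out (H : IsBField P σ e c) {A B : Face} (hA : IsFace P A) (hB : IsFace P B)
    (h1 : FOut σ e c A ∨ BackOut σ e c A) (h2 : FOut σ e c B ∨ BackOut σ e c B)
    (h : EqvGen (Up P σ e (UB P σ e c)) A B) : A = B := by
  have key : ∀ A B, IsFace P A → IsFace P B → (FOut σ e c A ∨ BackOut σ e c A) →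
      (FOut σ e c B ∨ BackOut σ e c B) → ReflTransGen (Up P σ e (UB P σ e c)) A B → A = B := by
    intro A B hA hB h1 h2 h
    rcases h1 with h1 | h1
    · rcases H.xs_white_up h with h3 | ⟨-, h3, -⟩
      · exact h3
      · exfalso
        have h4 := h3 h1.2
        rcases h2 with h2 | h2
        · rw [h2.1] at h4
          exact absurd h4 (by decide)
        · rw [(H.backOut B hB h2).1] at h4
          exact absurd h4 (by decide)
    · exact xs_top_of_bOut h1 h
  rcases H.xs_comparable h with h | h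
  · exact key A B hA hB h1 h2 h
  · exact (key B A hB hA h2 h1 h).symm

/-- A column has only one entry. -/
theorem xs_uniq_in (H : IsBField P σ e c) {A B : Face} (hA : IsFace P A) (hB : IsFace P B)
    (h1 : FIn σ e c A ∨ BackIn σ e c A) (h2 : FIn σ e c B ∨ BackIn σ e c B)
    (h : EqvGen (Up P σ e (UB P σ e c)) A B) : A = B := by
  have key : ∀ A B, IsFace P A → IsFace P B → (FIn σ e c A ∨ BackIn σ e c A) →
      (FIn σ e c B ∨ BackIn σ e c B) → ReflTransGen (Up P σ e (UB P σ e c)) A B → A = B := by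
    intro A B hA hB h1 h2 h
    have hw : c (cr σ e A Hd.N Hd.W) = true := by
      rcases h1 with h1 | h1
      · exact h1.2
      · exact (H.backIn A hA h1).2
    rcases h2 with h2 | h2
    · rcases H.xs_white_up h with h3 | ⟨-, -, h3⟩
      · exact h3
      · exfalso
        have h4 := h3 hw
        rw [h2.1] at h4
        exact absurd h4 (by decide)
    · exact xs_bot_of_bIn h2 h
  rcases H.xs_comparable h with h | h
  · exact key A B hA hB h1 h2 h
  · exact (key B A hB hA h2 h1 h).symm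

theorem xs_fOut_cmp (H : IsBField P σ e c) {A : Face} (hA : IsFace P A) (h : FOut σ e c A) :
    Cmp P σ e A Hd.E := H.latE A hA (by rw [h.1, h.2]; decide)

theorem xs_bOut_cmp (H : IsBField P σ e c) {A : Face} (hA : IsFace P A) (h : BackOut σ e c A) :
    Cmp P σ e A Hd.W := H.latW A hA (by rw [h.1, h.2]; decide)

theorem xs_fOut_fIn (H : IsBField P σ e c) {A : Face} (hA : IsFace P A) (h : FOut σ e c A) :
    FIn σ e c (nb P σ e A Hd.E) := by
  obtain ⟨e1, e2⟩ := H.xs_east hA (H.xs_fOut_cmp hA h)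
  exact ⟨by rw [e1]; exact h.1, by rw [e2]; exact h.2⟩

theorem xs_bOut_bIn (H : IsBField P σ e c) {A : Face} (hA : IsFace P A) (h : BackOut σ e c A) :
    BackIn σ e c (nb P σ e A Hd.W) := by
  obtain ⟨e1, e2⟩ := H.xs_west hA (H.xs_bOut_cmp hA h)
  exact ⟨by rw [e1]; exact h.1, by rw [e2]; exact h.2⟩

/-- A face is not both left to the east and to the west. -/
theorem xs_not_both (H : IsBField P σ e c) {A : Face} (hA : IsFace P A) (h1 : FOut σ e c A)
    (h2 : BackOut σ e c A) : False := by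
  have := (H.backOut A hA h2).2
  rw [h1.2] at this
  exact absurd this (by decide)

/-- The column that is entered from the east is left to the east. -/
theorem xs_no_two_back (H : IsBField P σ e c) (hx : Excl P σ e c) {A B : Face}
    (hA : IsFace P A) (hB : IsFace P B) (h1 : BackOut σ e c A) (h : EqvGen (Up P σ e (UB P σ e c)) (nb P σ e A Hd.W) B) :
    ¬ BackOut σ e c B := by
  intro h2
  refine hx _ _ (isFace_nbr hA) hB (H.xs_bOut_bIn hA h1) h2 ?_
  refine eqvGen_mono' ?_ h
  rintro a b ⟨h3, h4⟩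
  exact ⟨⟨h3.1, h3.2.1⟩, h4⟩

/-- Heights decrease with the distance from the top. -/
theorem xs_ht_up (H : IsBField P σ e c) {A B : Face}
    (h : ReflTransGen (Up P σ e (UB P σ e c)) A B) :
    -(hgt P σ e A : ℤ) ≤ -(hgt P σ e B : ℤ) := by
  induction h with
  | refl => exact le_rfl
  | @tail C D _ h2 ih =>
    obtain ⟨hC, rfl⟩ := h2
    have := H.xs_hgt_step hC.1 hC.2.1
    rw [this] at ih
    push_cast at ih
    linarith

/-- A coloured direction field with back steps, whose curve is connected and whose columns are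
ordered near the back steps, is a closed ladder with back steps. -/
theorem isLadderB (H : IsBField P σ e c) (hx : Excl P σ e c)
    (hord1 : ∀ A B F, IsFace P A → IsFace P B → FOut σ e c A → BackOut σ e c B →
      EqvGen (Up P σ e (UB P σ e c)) (nb P σ e A Hd.E) B →
      EqvGen (Up P σ e (UB P σ e c)) F A →
      (hgt P σ e A : ℤ) - hgt P σ e F < hgt P σ e (nb P σ e A Hd.E) - hgt P σ e B)
    (hord2 : ∀ A B G, IsFace P A → IsFace P B → BackOut σ e c A → FOut σ e c B →
      EqvGen (Up P σ e (UB P σ e c)) (nb P σ e A Hd.W) B →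
      EqvGen (Up P σ e (UB P σ e c)) G (nb P σ e B Hd.E) →
      (hgt P σ e G : ℤ) - hgt P σ e (nb P σ e B Hd.E) < hgt P σ e (nb P σ e A Hd.W) - hgt P σ e B)
    (hconn : ∀ A B, IsFace P A → IsFace P B →
      EqvGen (fun C D => Up P σ e (UB P σ e c) C D ∨ CrB P σ e (bkB σ e c) (XB P σ e c) C D)
        A B) :
    IsLadderB P σ e (UB P σ e c) (XB P σ e c) (bkB σ e c) (fun A => -(hgt P σ e A : ℤ)) := by
  have hE : ∀ A, IsFace P A → FOut σ e c A → bkB σ e c A = false := by
    intro A hA h
    rw [← Bool.not_eq_true, bkB_iff]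
    exact fun h' => H.xs_not_both hA h h'
  have hW : ∀ A, BackOut σ e c A → bkB σ e c A = true := fun A h => bkB_iff.2 h
  have nE : ∀ A, IsFace P A → FOut σ e c A → nxtB P σ e (bkB σ e c) A = nb P σ e A Hd.E := by
    intro A hA h
    simp [nxtB, hdB, hE A hA h]
  have nW : ∀ A, BackOut σ e c A → nxtB P σ e (bkB σ e c) A = nb P σ e A Hd.W := by
    intro A h
    simp [nxtB, hdB, hW A h]
  have hin : ∀ A ∈ XB P σ e c, FIn σ e c (nxtB P σ e (bkB σ e c) A) ∨
      BackIn σ e c (nxtB P σ e (bkB σ e c) A) := by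
    rintro A ⟨hA, h | h⟩
    · rw [nE A hA h]
      exact Or.inl (H.xs_fOut_fIn hA h)
    · rw [nW A h]
      exact Or.inr (H.xs_bOut_bIn hA h)
  constructor
  · exact H.perp
  · exact fun A hA => hA.1
  · exact fun A hA => hA.2.1
  · exact fun A hA => hA.1
  · rintro A ⟨hA, h | h⟩
    · simp only [hdB, hE A hA h]
      exact H.xs_fOut_cmp hA h
    · simp only [hdB, hW A h]
      exact H.xs_bOut_cmp hA h
  · intro A hA
    have := H.xs_hgt_step hA.1 hA.2.1
    change -(hgt P σ e (nb P σ e A Hd.N) : ℤ) = -(hgt P σ e A : ℤ) + 1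
    rw [this]
    push_cast
    ring
  · intro A hA
    obtain ⟨B, hB, h, hAB⟩ := H.xs_exists_out A hA
    exact ⟨B, ⟨hB, h⟩, hAB⟩
  · rintro A ⟨hA, h1⟩ B ⟨hB, h2⟩ hAB
    exact H.xs_uniq_out hA hB h1 h2 hAB
  · intro A hA B hB hAB
    have hFA : IsFace P (nxtB P σ e (bkB σ e c) A) := isFace_nbr hA.1
    have hFB : IsFace P (nxtB P σ e (bkB σ e c) B) := isFace_nbr hB.1
    have heq := H.xs_uniq_in hFA hFB (hin A hA) (hin B hB) hAB
    obtain ⟨hA, h1⟩ := hA
    obtain ⟨hB, h2⟩ := hB
    rcases h1 with h1 | h1 <;> rcases h2 with h2 | h2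
    · rw [nE A hA h1, nE B hB h2] at heq
      have e1 := (Cmp.back hA (H.perp A hA) (H.xs_fOut_cmp hA h1)).2
      have e2 := (Cmp.back hB (H.perp B hB) (H.xs_fOut_cmp hB h2)).2
      rw [heq] at e1
      exact e1.symm.trans e2
    · exfalso
      rw [nE A hA h1, nW B h2] at heq
      have k1 := H.xs_fOut_fIn hA h1
      have k2 := H.xs_bOut_bIn hB h2
      rw [heq] at k1
      have := (H.backIn (nb P σ e B Hd.W) (isFace_nbr hB) k2).1
      rw [k1.1] at this
      exact absurd this (by decide)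
    · exfalso
      rw [nW A h1, nE B hB h2] at heq
      have k1 := H.xs_bOut_bIn hA h1
      have k2 := H.xs_fOut_fIn hB h2
      rw [← heq] at k2
      have := (H.backIn (nb P σ e A Hd.W) (isFace_nbr hA) k1).1
      rw [k2.1] at this
      exact absurd this (by decide)
    · rw [nW A h1, nW B h2] at heq
      have e1 := (Cmp.back hA (H.perp A hA) (H.xs_bOut_cmp hA h1)).2
      have e2 := (Cmp.back hB (H.perp B hB) (H.xs_bOut_cmp hB h2)).2
      rw [heq] at e1
      exact e1.symm.trans e2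
  · rintro A ⟨hA, h1⟩ B ⟨hB, h2⟩ hAB hbA
    have h1' := bkB_iff.1 hbA
    rw [nW A h1'] at hAB
    rw [← Bool.not_eq_true, bkB_iff]
    exact H.xs_no_two_back hx hA hB h1' hAB
  · rintro A ⟨hA, h1⟩ B ⟨hB, h2⟩ hAB hne F G hFA hGB
    rcases h1 with h1 | h1 <;> rcases h2 with h2 | h2
    · exact absurd ((hE A hA h1).trans (hE B hB h2).symm) hne
    · rw [nE A hA h1] at hAB ⊢
      rw [nW B h2] at hGB ⊢
      have k1 := hord1 A B F hA hB h1 h2 hAB hFA
      have k2 : -(hgt P σ e (nb P σ e B Hd.W) : ℤ) ≤ -(hgt P σ e G : ℤ) := by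
        rcases H.xs_comparable hGB with h | h
        · rw [xs_bot_of_bIn (H.xs_bOut_bIn hB h2) h]
        · exact H.xs_ht_up h
      change -(hgt P σ e F : ℤ) < -(hgt P σ e G : ℤ) + (-(hgt P σ e A : ℤ) -
        -(hgt P σ e (nb P σ e A Hd.E) : ℤ)) + (-(hgt P σ e B : ℤ) -
        -(hgt P σ e (nb P σ e B Hd.W) : ℤ))
      linarith
    · rw [nW A h1] at hAB ⊢
      rw [nE B hB h2] at hGB ⊢
      have k1 := hord2 A B G hA hB h1 h2 hAB hGB
      have k2 : -(hgt P σ e F : ℤ) ≤ -(hgt P σ e A : ℤ) := by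
        rcases H.xs_comparable hFA with h | h
        · exact H.xs_ht_up h
        · rw [xs_top_of_bOut h1 h]
      change -(hgt P σ e F : ℤ) < -(hgt P σ e G : ℤ) + (-(hgt P σ e A : ℤ) -
        -(hgt P σ e (nb P σ e A Hd.W) : ℤ)) + (-(hgt P σ e B : ℤ) -
        -(hgt P σ e (nb P σ e B Hd.E) : ℤ))
      linarith
    · exact absurd ((hW A h1).trans (hW B h2).symm) hne
  · exact hconn

end Pool.Agent.Helper84.LD.IsBField
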