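import Pool.Agent.Helper53.GP.TieCol
import Pool.Agent.Helper53.GP.ColGraph

/-!
# The edges of the boundary surface in terms of local patterns (project TIE, MP_409f7f_co)
-/

set_option autoImplicit false

namespace Pool.Agent.Helper28.XS

open Pool.Agent.Helper17.UF Pool.Agent.Helper84.LD Pool.Agent.Helper16.LD
  Pool.Agent.Helper53.GP Relation

/-- The four cubes at the edge from `(x, y, z)` in the direction `y`. -/
def yr (l r : B4) : B4 := (l.2.2.1, l.2.2.2, r.2.2.1, r.2.2.2)

/-- The four cubes at the edge from `(x, y, z)` in the direction `z`. -/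
def zr (l r : B4) : B4 := (l.2.1, l.2.2.2, r.2.1, r.2.2.2)

theorem eg_mem {Q : Finset Cube} {u : Cube} {d t : Dir} (hu : u ∈ Q) (hd : u + d.vec ∉ Q)
    (hp : Dir.perp d t = true) : eg (u, d) t ∈ edgeF Q :=
  Finset.mem_image.2 ⟨((u, d), t), mem_sideF.2 ⟨⟨hu, hd⟩, hp⟩, rfl⟩

theorem eg_up (u : Cube) {d t w : Dir} (h1 : Dir.perp d t = true) (h2 : Dir.perp w d = true)
    (h3 : Dir.perp w t = true) (hw : w = Dir.px ∨ w = Dir.py ∨ w = Dir.pz) :
    eg (u, d) t = s(u + up d + up t, u + up d + up t + w.vec) := by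
  have key : ∀ d t w : Dir, Dir.perp d t = true → Dir.perp w d = true → Dir.perp w t = true →
      (w = Dir.px ∨ w = Dir.py ∨ w = Dir.pz) →
      (up (Dir.cross d t) = 0 ∧ up (Dir.cross d t).neg = w.vec) ∨
      (up (Dir.cross d t) = w.vec ∧ up (Dir.cross d t).neg = 0) := by decide
  unfold eg cnr
  have e1 : u + (up d + up t + 0) = u + up d + up t := by abel
  have e2 : u + (up d + up t + w.vec) = u + up d + up t + w.vec := by abel
  rcases key d t w h1 h2 h3 hw with ⟨a, b⟩ | ⟨a, b⟩
  · simp only [a, b, e1, e2]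
  · simp only [a, b, e1, e2]
    rw [Sym2.eq_swap]

theorem edge_of {Q : Finset Cube} {p : Cube} {d t w : Dir} (h1 : Dir.perp d t = true)
    (h2 : Dir.perp w d = true) (h3 : Dir.perp w t = true)
    (hw : w = Dir.px ∨ w = Dir.py ∨ w = Dir.pz) (hu : p - up d - up t ∈ Q)
    (hv : p - up d - up t + d.vec ∉ Q) : s(p, p + w.vec) ∈ edgeF Q := by
  have := eg_mem hu hv h1
  rw [eg_up _ h1 h2 h3 hw] at this
  have e : p - up d - up t + up d + up t = p := by abel
  rwa [e] at this

theorem edge_cases {Q : Finset Cube} {a b : Cube} (h : s(a, b) ∈ edgeF Q) :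
    ∃ (p : Cube) (d t w : Dir), Dir.perp d t = true ∧ Dir.perp w d = true ∧
      Dir.perp w t = true ∧ (w = Dir.px ∨ w = Dir.py ∨ w = Dir.pz) ∧ p - up d - up t ∈ Q ∧
      p - up d - up t + d.vec ∉ Q ∧ s(a, b) = s(p, p + w.vec) := by
  unfold edgeF at h
  rw [Finset.mem_image] at h
  obtain ⟨⟨⟨u, d⟩, t⟩, hs, he⟩ := h
  obtain ⟨hA, hp⟩ := mem_sideF.1 hs
  have key : ∀ d t : Dir, Dir.perp d t = true → ∃ w : Dir, Dir.perp w d = true ∧
      Dir.perp w t = true ∧ (w = Dir.px ∨ w = Dir.py ∨ w = Dir.pz) := by decide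
  obtain ⟨w, k1, k2, k3⟩ := key d t hp
  have e : u + up d + up t - up d - up t = u := by abel
  refine ⟨u + up d + up t, d, t, w, hp, k1, k2, k3, ?_, ?_, ?_⟩
  · rw [e]; exact hA.1
  · rw [e]; exact hA.2
  · rw [← he]
    exact eg_up u hp k1 k2 k3

section mem

variable {Q : Finset Cube} {x y z : ℤ}

theorem ne_cases {a b : Bool} (h : a ≠ b) : (a = true ∧ b = false) ∨ (a = false ∧ b = true) := by
  cases a <;> cases b <;> simp_all

/-- Edges in the direction `x`. -/
theorem mem_x (h : cst (pat Q x y z) = false) : s((x, y, z), (x + 1, y, z)) ∈ edgeF Q := by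
  have e0 : ((x + 1, y, z) : Cube) = (x, y, z) + Dir.px.vec := by simp [Dir.vec]
  rw [e0]
  have key : ∀ l : B4, cst l = false → l.1 ≠ l.2.1 ∨ l.2.2.1 ≠ l.2.2.2 ∨ l.1 ≠ l.2.2.1 ∨
      l.2.1 ≠ l.2.2.2 := by decide
  have hh := key _ h
  unfold pat at hh
  simp only at hh
  rcases hh with h | h | h | h <;> rcases ne_cases h with ⟨h1, h2⟩ | ⟨h1, h2⟩
  · rw [oc_eq] at h1
    rw [oc_eq_false] at h2
    refine edge_of (d := Dir.pz) (t := Dir.py) (by decide) (by decide) (by decide) (Or.inl rfl) ?_ ?_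
    · simpa [up] using h1
    · simpa [up, Dir.vec] using h2
  · rw [oc_eq] at h2
    rw [oc_eq_false] at h1
    refine edge_of (d := Dir.nz) (t := Dir.py) (by decide) (by decide) (by decide) (Or.inl rfl) ?_ ?_
    · simpa [up] using h2
    · simpa [up, Dir.vec, ← sub_eq_add_neg] using h1
  · rw [oc_eq] at h1
    rw [oc_eq_false] at h2
    refine edge_of (d := Dir.pz) (t := Dir.ny) (by decide) (by decide) (by decide) (Or.inl rfl) ?_ ?_
    · simpa [up] using h1
    · simpa [up, Dir.vec] using h2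
  · rw [oc_eq] at h2
    rw [oc_eq_false] at h1
    refine edge_of (d := Dir.nz) (t := Dir.ny) (by decide) (by decide) (by decide) (Or.inl rfl) ?_ ?_
    · simpa [up] using h2
    · simpa [up, Dir.vec, ← sub_eq_add_neg] using h1
  · rw [oc_eq] at h1
    rw [oc_eq_false] at h2
    refine edge_of (d := Dir.py) (t := Dir.pz) (by decide) (by decide) (by decide) (Or.inl rfl) ?_ ?_
    · simpa [up] using h1
    · simpa [up, Dir.vec] using h2
  · rw [oc_eq] at h2
    rw [oc_eq_false] at h1
    refine edge_of (d := Dir.ny) (t := Dir.pz) (by decide) (by decide) (by decide) (Or.inl rfl) ?_ ?_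
    · simpa [up] using h2
    · simpa [up, Dir.vec, ← sub_eq_add_neg] using h1
  · rw [oc_eq] at h1
    rw [oc_eq_false] at h2
    refine edge_of (d := Dir.py) (t := Dir.nz) (by decide) (by decide) (by decide) (Or.inl rfl) ?_ ?_
    · simpa [up] using h1
    · simpa [up, Dir.vec] using h2
  · rw [oc_eq] at h2
    rw [oc_eq_false] at h1
    refine edge_of (d := Dir.ny) (t := Dir.nz) (by decide) (by decide) (by decide) (Or.inl rfl) ?_ ?_
    · simpa [up] using h2
    · simpa [up, Dir.vec, ← sub_eq_add_neg] using h1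

/-- Edges in the direction `y`. -/
theorem mem_y (h : cst (yr (pat Q (x - 1) y z) (pat Q x y z)) = false) :
    s((x, y, z), (x, y + 1, z)) ∈ edgeF Q := by
  have e0 : ((x, y + 1, z) : Cube) = (x, y, z) + Dir.py.vec := by simp [Dir.vec]
  rw [e0]
  have key : ∀ l : B4, cst l = false → l.1 ≠ l.2.1 ∨ l.2.2.1 ≠ l.2.2.2 ∨ l.1 ≠ l.2.2.1 ∨
      l.2.1 ≠ l.2.2.2 := by decide
  have hh := key _ h
  unfold yr pat at hh
  simp only at hh
  rcases hh with h | h | h | h <;> rcases ne_cases h with ⟨h1, h2⟩ | ⟨h1, h2⟩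
  · rw [oc_eq] at h1
    rw [oc_eq_false] at h2
    refine edge_of (d := Dir.pz) (t := Dir.px) (by decide) (by decide) (by decide)
      (Or.inr (Or.inl rfl)) ?_ ?_
    · simpa [up] using h1
    · simpa [up, Dir.vec] using h2
  · rw [oc_eq] at h2
    rw [oc_eq_false] at h1
    refine edge_of (d := Dir.nz) (t := Dir.px) (by decide) (by decide) (by decide)
      (Or.inr (Or.inl rfl)) ?_ ?_
    · simpa [up] using h2
    · simpa [up, Dir.vec, ← sub_eq_add_neg] using h1
  · rw [oc_eq] at h1
    rw [oc_eq_false] at h2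
    refine edge_of (d := Dir.pz) (t := Dir.nx) (by decide) (by decide) (by decide)
      (Or.inr (Or.inl rfl)) ?_ ?_
    · simpa [up] using h1
    · simpa [up, Dir.vec] using h2
  · rw [oc_eq] at h2
    rw [oc_eq_false] at h1
    refine edge_of (d := Dir.nz) (t := Dir.nx) (by decide) (by decide) (by decide)
      (Or.inr (Or.inl rfl)) ?_ ?_
    · simpa [up] using h2
    · simpa [up, Dir.vec, ← sub_eq_add_neg] using h1
  · rw [oc_eq] at h1
    rw [oc_eq_false] at h2
    refine edge_of (d := Dir.px) (t := Dir.pz) (by decide) (by decide) (by decide)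
      (Or.inr (Or.inl rfl)) ?_ ?_
    · simpa [up] using h1
    · simpa [up, Dir.vec] using h2
  · rw [oc_eq] at h2
    rw [oc_eq_false] at h1
    refine edge_of (d := Dir.nx) (t := Dir.pz) (by decide) (by decide) (by decide)
      (Or.inr (Or.inl rfl)) ?_ ?_
    · simpa [up] using h2
    · simpa [up, Dir.vec, ← sub_eq_add_neg] using h1
  · rw [oc_eq] at h1
    rw [oc_eq_false] at h2
    refine edge_of (d := Dir.px) (t := Dir.nz) (by decide) (by decide) (by decide)
      (Or.inr (Or.inl rfl)) ?_ ?_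
    · simpa [up] using h1
    · simpa [up, Dir.vec] using h2
  · rw [oc_eq] at h2
    rw [oc_eq_false] at h1
    refine edge_of (d := Dir.nx) (t := Dir.nz) (by decide) (by decide) (by decide)
      (Or.inr (Or.inl rfl)) ?_ ?_
    · simpa [up] using h2
    · simpa [up, Dir.vec, ← sub_eq_add_neg] using h1

/-- Edges in the direction `z`. -/
theorem mem_z (h : cst (zr (pat Q (x - 1) y z) (pat Q x y z)) = false) :
    s((x, y, z), (x, y, z + 1)) ∈ edgeF Q := by
  have e0 : ((x, y, z + 1) : Cube) = (x, y, z) + Dir.pz.vec := by simp [Dir.vec]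
  rw [e0]
  have key : ∀ l : B4, cst l = false → l.1 ≠ l.2.1 ∨ l.2.2.1 ≠ l.2.2.2 ∨ l.1 ≠ l.2.2.1 ∨
      l.2.1 ≠ l.2.2.2 := by decide
  have hh := key _ h
  unfold zr pat at hh
  simp only at hh
  rcases hh with h | h | h | h <;> rcases ne_cases h with ⟨h1, h2⟩ | ⟨h1, h2⟩
  · rw [oc_eq] at h1
    rw [oc_eq_false] at h2
    refine edge_of (d := Dir.py) (t := Dir.px) (by decide) (by decide) (by decide)
      (Or.inr (Or.inr rfl)) ?_ ?_
    · simpa [up] using h1
    · simpa [up, Dir.vec] using h2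
  · rw [oc_eq] at h2
    rw [oc_eq_false] at h1
    refine edge_of (d := Dir.ny) (t := Dir.px) (by decide) (by decide) (by decide)
      (Or.inr (Or.inr rfl)) ?_ ?_
    · simpa [up] using h2
    · simpa [up, Dir.vec, ← sub_eq_add_neg] using h1
  · rw [oc_eq] at h1
    rw [oc_eq_false] at h2
    refine edge_of (d := Dir.py) (t := Dir.nx) (by decide) (by decide) (by decide)
      (Or.inr (Or.inr rfl)) ?_ ?_
    · simpa [up] using h1
    · simpa [up, Dir.vec] using h2
  · rw [oc_eq] at h2
    rw [oc_eq_false] at h1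
    refine edge_of (d := Dir.ny) (t := Dir.nx) (by decide) (by decide) (by decide)
      (Or.inr (Or.inr rfl)) ?_ ?_
    · simpa [up] using h2
    · simpa [up, Dir.vec, ← sub_eq_add_neg] using h1
  · rw [oc_eq] at h1
    rw [oc_eq_false] at h2
    refine edge_of (d := Dir.px) (t := Dir.py) (by decide) (by decide) (by decide)
      (Or.inr (Or.inr rfl)) ?_ ?_
    · simpa [up] using h1
    · simpa [up, Dir.vec] using h2
  · rw [oc_eq] at h2
    rw [oc_eq_false] at h1
    refine edge_of (d := Dir.nx) (t := Dir.py) (by decide) (by decide) (by decide)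
      (Or.inr (Or.inr rfl)) ?_ ?_
    · simpa [up] using h2
    · simpa [up, Dir.vec, ← sub_eq_add_neg] using h1
  · rw [oc_eq] at h1
    rw [oc_eq_false] at h2
    refine edge_of (d := Dir.px) (t := Dir.ny) (by decide) (by decide) (by decide)
      (Or.inr (Or.inr rfl)) ?_ ?_
    · simpa [up] using h1
    · simpa [up, Dir.vec] using h2
  · rw [oc_eq] at h2
    rw [oc_eq_false] at h1
    refine edge_of (d := Dir.nx) (t := Dir.ny) (by decide) (by decide) (by decide)
      (Or.inr (Or.inr rfl)) ?_ ?_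
    · simpa [up] using h2
    · simpa [up, Dir.vec, ← sub_eq_add_neg] using h1

end mem

theorem not_cst_of {a b c d : Bool} (h : ¬ (a = b ∧ a = c ∧ a = d)) :
    cst (a, b, c, d) = false := by
  cases a <;> cases b <;> cases c <;> cases d <;> simp_all [cst]

/-- Every edge is of one of the three kinds. -/
theorem edge_kinds {Q : Finset Cube} {a b : Cube} (h : s(a, b) ∈ edgeF Q) :
    ∃ x y z : ℤ, (s(a, b) = s((x, y, z), (x + 1, y, z)) ∧ cst (pat Q x y z) = false) ∨
      (s(a, b) = s((x, y, z), (x, y + 1, z)) ∧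
        cst (yr (pat Q (x - 1) y z) (pat Q x y z)) = false) ∨
      (s(a, b) = s((x, y, z), (x, y, z + 1)) ∧
        cst (zr (pat Q (x - 1) y z) (pat Q x y z)) = false) := by
  obtain ⟨⟨x, y, z⟩, d, t, w, h1, h2, h3, hw, hu, hv, he⟩ := edge_cases h
  refine ⟨x, y, z, ?_⟩
  rcases hw with rfl | rfl | rfl
  · left
    refine ⟨by rw [he]; simp [Dir.vec], ?_⟩
    unfold pat
    refine not_cst_of ?_
    rintro ⟨k1, k2, k3⟩
    cases d <;> first | (exact absurd h2 (by decide)) | skip
    all_goals
      cases t <;> first | (exact absurd h3 (by decide)) | (exact absurd h1 (by decide)) | skip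
    all_goals
      simp only [up, Dir.vec, Prod.mk_sub_mk, Prod.mk_add_mk, sub_zero, add_zero,
        sub_add_cancel, ← sub_eq_add_neg] at hu hv
      rw [← oc_eq] at hu
      rw [← oc_eq_false] at hv
      simp_all
  · right; left
    refine ⟨by rw [he]; simp [Dir.vec], ?_⟩
    unfold yr pat
    refine not_cst_of ?_
    rintro ⟨k1, k2, k3⟩
    cases d <;> first | (exact absurd h2 (by decide)) | skip
    all_goals
      cases t <;> first | (exact absurd h3 (by decide)) | (exact absurd h1 (by decide)) | skip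
    all_goals
      simp only [up, Dir.vec, Prod.mk_sub_mk, Prod.mk_add_mk, sub_zero, add_zero,
        sub_add_cancel, ← sub_eq_add_neg] at hu hv
      rw [← oc_eq] at hu
      rw [← oc_eq_false] at hv
      simp_all
  · right; right
    refine ⟨by rw [he]; simp [Dir.vec], ?_⟩
    unfold zr pat
    refine not_cst_of ?_
    rintro ⟨k1, k2, k3⟩
    cases d <;> first | (exact absurd h2 (by decide)) | skip
    all_goals
      cases t <;> first | (exact absurd h3 (by decide)) | (exact absurd h1 (by decide)) | skip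
    all_goals
      simp only [up, Dir.vec, Prod.mk_sub_mk, Prod.mk_add_mk, sub_zero, add_zero,
        sub_add_cancel, ← sub_eq_add_neg] at hu hv
      rw [← oc_eq] at hu
      rw [← oc_eq_false] at hv
      simp_all

end Pool.Agent.Helper28.XS
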