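import Pool.Agent.Helper28.XS.Order
import Pool.Agent.Helper84.LD.BEuler
import Pool.Agent.Helper84.LD.Dil

/-!
# Assembly of the theorem on polycubes with ties (project TIE, MP_409f7f_co)
-/

set_option autoImplicit false

namespace Pool.Agent.Helper28.XS

open Pool.Agent.Helper17.UF Pool.Agent.Helper84.LD Pool.Agent.Helper53.GP
  Pool.Agent.Helper16.LD Relation

variable {P : Finset Cube}

/-- The colour graphs are connected. -/
def ColConn (P : Finset Cube) (c : Cube → Bool) : Prop :=
  ∀ p ∈ vertF P, ∀ q ∈ vertF P, c p = c q →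
    ReflTransGen (fun x y => s(x, y) ∈ edgeF P ∧ c x = c y) p q

/-- From the modules M3, M4, M4b, M5/M6 to the unfolding. -/
theorem unfolding_of (hman : Man P) (hsurf : SurfConn P)
    (heuler : (vertF P).card + (faceF P).card = (edgeF P).card + 2) (hF : FlatEven P)
    (hz : NoOpp P Dir.pz) {c : Cube → Bool} (H : IsBField P true eCan c)
    (hx : Excl P true eCan c)
    (hbo : ∀ A, IsFace P A → BackOut true eCan c A → ¬ Wall A)
    (hbi : ∀ A, IsFace P A → BackIn true eCan c A → ¬ Wall A)
    (hcol : ColConn P c) : HasEdgeUnfolding P :=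
  (H.isLadderB hx (ord1 H hman hF hz hbo hbi) (ord2 H hman hF hz hbo hbi)
    (H.conn_of_euler hman hsurf heuler hcol)).unfolding hman

end Pool.Agent.Helper28.XS
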