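import Pool.Agent.Helper53.GP.TieDefs
import Pool.Agent.Helper28.XS.BField

/-!
# The order of the columns near a back step (project TIE, MP_409f7f_co)
-/

set_option autoImplicit false

namespace Pool.Agent.Helper28.XS

open Pool.Agent.Helper17.UF Pool.Agent.Helper84.LD Pool.Agent.Helper53.GP Relation

variable {P : Finset Cube}

/-! ### Lateral neighbours -/

theorem perp_axis {a b : Dir} (h : Dir.perp a b = true) : a.axis ≠ b.axis := by
  unfold Dir.perp at h
  simpa using h

/-- The lateral neighbour of a wall is a wall. -/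
theorem wall_lat {A : Face} (hw : Wall A) {k : Hd} (hk : k = Hd.E ∨ k = Hd.W) :
    Wall (nb P true eCan A k) := by
  obtain ⟨v, d⟩ := A
  have h1 := lateral_axis (A := (v, d)) hk
  have hd : d.axis ≠ 2 := hw
  have e1 : nb P true eCan (v, d) k = (nbr P (v, d) (dA true eCan (v, d) k)).1 := rfl
  rw [e1]
  rcases nbr_cases P v d (dA true eCan (v, d) k) with ⟨-, e⟩ | ⟨-, -, e⟩ | ⟨-, -, e⟩
  · rw [e]
    change (dA true eCan (v, d) k).neg.axis ≠ 2
    rw [neg_axis]
    exact h1.2
  · rw [e]
    exact hd
  · rw [e]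
    exact h1.2

theorem wall_lat_iff {A : Face} (hA : IsFace P A) {k : Hd} (hk : k = Hd.E ∨ k = Hd.W)
    (hc : Cmp P true eCan A k) : Wall (nb P true eCan A k) ↔ Wall A := by
  constructor
  · intro h
    have h1 := (hc.back hA (perp_eCan A)).2
    rw [← h1]
    refine wall_lat h ?_
    rcases hk with rfl | rfl
    · exact Or.inr rfl
    · exact Or.inl rfl
  · exact fun h => wall_lat h hk

theorem dA_lat (A : Face) {k : Hd} (hk : k = Hd.E ∨ k = Hd.W) :
    dA true eCan A k = if k = Hd.E then eCan A else (eCan A).neg := by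
  rcases hk with rfl | rfl
  · rfl
  · rfl

theorem dA_lat_congr {A B : Face} (h : eCan A = eCan B) {k : Hd} (hk : k = Hd.E ∨ k = Hd.W) :
    dA true eCan A k = dA true eCan B k := by
  rw [dA_lat A hk, dA_lat B hk, h]

/-- A horizontal direction that is perpendicular to the normal, between faces with the same
normal. -/
theorem nbr_flat_eq {v : Cube} {d t : Dir} (h1 : v + t.vec ∈ P) (h2 : v + t.vec + d.vec ∉ P) :
    nbr P (v, d) t = ((v + t.vec, d), t.neg) := by
  rcases nbr_cases P v d t with ⟨h, -⟩ | ⟨-, -, e⟩ | ⟨-, h, -⟩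
  · exact absurd h h2
  · exact e
  · exact absurd h1 h

/-- Flat lateral neighbours are translates. -/
theorem flat_lat {A : Face} {k : Hd} (hk : k = Hd.E ∨ k = Hd.W) (hA : ¬ Wall A)
    (hB : ¬ Wall (nb P true eCan A k)) :
    nb P true eCan A k = (A.1 + (dA true eCan A k).vec, A.2) := by
  obtain ⟨v, d⟩ := A
  have h1 := lateral_axis (A := (v, d)) hk
  have e1 : nb P true eCan (v, d) k = (nbr P (v, d) (dA true eCan (v, d) k)).1 := rfl
  rcases nbr_cases P v d (dA true eCan (v, d) k) with ⟨-, e⟩ | ⟨-, -, e⟩ | ⟨-, -, e⟩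
  · exfalso
    rw [e1, e] at hB
    apply hB
    change (dA true eCan (v, d) k).neg.axis ≠ 2
    rw [neg_axis]
    exact h1.2
  · rw [e1, e]
  · exfalso
    rw [e1, e] at hB
    exact hB h1.2

/-- Lateral neighbours that are translates in the lateral direction, with the same frame. -/
theorem lat_of_translate {v : Cube} {d : Dir} {k : Hd} {t : Dir}
    (ht : dA true eCan (v, d) k = t) (hB : IsFace P (v + t.vec, d))
    (he : eCan (v + t.vec, d) = eCan (v, d)) :
    Cmp P true eCan (v, d) k ∧ nb P true eCan (v, d) k = (v + t.vec, d) := by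
  have h1 : nbr P (v, d) (dA true eCan (v, d) k) = ((v + t.vec, d), t.neg) := by
    rw [ht]
    exact nbr_flat_eq hB.1 hB.2
  have h2 : nb P true eCan (v, d) k = (v + t.vec, d) := by
    change (nbr P (v, d) (dA true eCan (v, d) k)).1 = _
    rw [h1]
  refine ⟨?_, h2⟩
  unfold Cmp
  rw [h2, h1]
  change t.neg = dirH true d (eCan (v + t.vec, d)) k.opp
  rw [he, dirH_opp]
  change t.neg = (dA true eCan (v, d) k).neg
  rw [ht]

theorem lev_flat_translate {v w : Cube} {d : Dir} (hd : d.axis = 2) (h : w.2.2 = v.2.2) :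
    lev (w, d) = lev (v, d) := by
  cases d <;> first | (exact absurd hd (by decide)) | skip
  · rw [lev_pz, lev_pz, h]
  · rw [lev_nz, lev_nz, h]

theorem lev_wall_translate {v w : Cube} {d : Dir} (hd : d.axis ≠ 2) (h : w.2.2 = v.2.2) :
    lev (w, d) = lev (v, d) := by
  cases d <;> first | (exact absurd rfl hd) | skip
  all_goals
    simp only [lev, h]

theorem lev_translate {v w : Cube} {d : Dir} (h : w.2.2 = v.2.2) : lev (w, d) = lev (v, d) := by
  by_cases hd : d.axis = 2
  · exact lev_flat_translate hd h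
  · exact lev_wall_translate hd h

theorem eCan_translate {v w : Cube} {d : Dir} (h : w.2.2 = v.2.2) : eCan (w, d) = eCan (v, d) :=
  eCan_congr (lev_translate h)

/-! ### Corners -/

theorem corner_nb {A : Face} {k h : Hd} (hc : Cmp P true eCan A k)
    (hh : h = k.left ∨ h = k.left.opp) :
    cr true eCan (nb P true eCan A k) h k.opp = cr true eCan A h k := by
  obtain ⟨s1, s2⟩ := side_corners (perp_eCan A) (perp_eCan _) hc
  have e1 : ∀ k : Hd, k.opp.left = k.left.opp := by decide
  rw [e1] at s1 s2
  rw [Hd.opp_opp] at s2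
  rcases hh with rfl | rfl
  · rw [cr_comm, s2, cr_comm]
  · rw [cr_comm, s1, cr_comm]

theorem pp_z_of_axis : ∀ t : Dir, t.axis ≠ 2 → (pp t).2.2 = 0 := by decide

/-- The height of a corner of a wall. -/
theorem cr_z {A : Face} (hw : Wall A) {h k : Hd} (hk : k = Hd.E ∨ k = Hd.W) :
    (cr true eCan A h k).2.2 = ht A.1 (dA true eCan A h) := by
  have h1 := pp_z_of_axis _ (lateral_axis (A := A) hk).2
  have h2 := pp_z_of_axis _ hw
  unfold cr crn ht
  rw [add_z, add_z, add_z, h1, h2]
  ring

theorem nb_z_lat {A : Face} (hw : Wall A) {k : Hd} (hk : k = Hd.E ∨ k = Hd.W) :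
    (nb P true eCan A k).1.2.2 = A.1.2.2 := by
  obtain ⟨v, d⟩ := A
  have h1 := vec_z_of_axis _ (lateral_axis (A := (v, d)) hk).2
  have h2 := vec_z_of_axis d hw
  have e1 : nb P true eCan (v, d) k = (nbr P (v, d) (dA true eCan (v, d) k)).1 := rfl
  rw [e1]
  rcases nbr_cases P v d (dA true eCan (v, d) k) with ⟨-, e⟩ | ⟨-, -, e⟩ | ⟨-, -, e⟩
  · rw [e]
    simp only
    rw [add_z, add_z, h1, h2]
    ring
  · rw [e]
    simp only
    rw [add_z, h1]
    ring
  · rw [e]

/-- A wall that is glued to a flat face of even level is a `y`-wall. -/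
theorem axis_of_even {A : Face} (hw : Wall A) (h : lev A % 2 = 0) : A.2.axis = 1 := by
  obtain ⟨v, d⟩ := A
  rcases axis_cases d with h1 | h1 | h1
  · have := (lev_wall_x (v := v) h1).1
    omega
  · exact h1
  · exact absurd h1 hw

theorem lev_nb_of_cmp {A : Face} (hw : Wall A) {h : Hd} (hh : h = Hd.N ∨ h = Hd.S)
    (hc : Cmp P true eCan A h) : lev (nb P true eCan A h) = lev A := by
  obtain ⟨v, d⟩ := A
  exact lev_nb_wall_to (P := P) hw (dA_wall hw hh) ((cmp_wall hw hh).1 hc)

theorem vert_left {h k : Hd} (hh : h = Hd.N ∨ h = Hd.S) (hk : k = Hd.E ∨ k = Hd.W) :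
    h = k.left ∨ h = k.left.opp := by
  rcases hh with rfl | rfl <;> rcases hk with rfl | rfl <;> decide

/-- Lateral neighbours below a flat face are translates. -/
theorem lat_same (hF : FlatEven P) {X : Face} (hX : IsFace P X) {h k : Hd}
    (hh : h = Hd.N ∨ h = Hd.S) (hk : k = Hd.E ∨ k = Hd.W) (c1 : Cmp P true eCan X k)
    (c2 : Cmp P true eCan X h) (c3 : Cmp P true eCan (nb P true eCan X k) h)
    (f2 : ¬ Wall (nb P true eCan (nb P true eCan X k) h)) :
    nb P true eCan X k = (X.1 + (dA true eCan X k).vec, X.2) ∧ (Wall X → X.2.axis = 1) := by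
  by_cases hw : Wall X
  · have hY : IsFace P (nb P true eCan X k) := isFace_nbr hX
    have hwY : Wall (nb P true eCan X k) := wall_lat hw hk
    have hev : lev (nb P true eCan X k) % 2 = 0 := by
      rw [← lev_nb_of_cmp hwY hh c3]
      exact hF _ (isFace_nbr hY) f2
    have haY := axis_of_even hwY hev
    have hlev : lev X = lev (nb P true eCan X k) := by
      have k1 := (cmp_wall hw hh).1 c2
      have k2 := (cmp_wall hwY hh).1 c3
      rw [← k1, ← k2, ← cr_z hw hk, ← corner_nb c1 (vert_left hh hk)]
      refine cr_z hwY ?_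
      rcases hk with rfl | rfl
      · exact Or.inr rfl
      · exact Or.inl rfl
    have haX := axis_of_even hw (hlev ▸ hev)
    refine ⟨?_, fun _ => haX⟩
    have hlat := lateral_axis (A := X) hk
    have h0 : (dA true eCan X k).axis = 0 := by
      have h1 := perp_axis hlat.1
      have h2 := hlat.2
      rcases axis_cases (dA true eCan X k) with h3 | h3 | h3
      · exact h3
      · rw [haX, h3] at h1
        exact absurd rfl h1
      · exact absurd h3 h2
    obtain ⟨v, d⟩ := X
    have e1 : nb P true eCan (v, d) k = (nbr P (v, d) (dA true eCan (v, d) k)).1 := rfl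
    rcases nbr_cases P v d (dA true eCan (v, d) k) with ⟨-, e⟩ | ⟨-, -, e⟩ | ⟨-, -, e⟩
    · exfalso
      rw [e1, e] at haY
      change (dA true eCan (v, d) k).neg.axis = 1 at haY
      rw [neg_axis, h0] at haY
      exact absurd haY (by decide)
    · rw [e1, e]
    · exfalso
      rw [e1, e] at haY
      change (dA true eCan (v, d) k).axis = 1 at haY
      rw [h0] at haY
      exact absurd haY (by decide)
  · refine ⟨flat_lat hk hw ?_, fun h' => absurd h' hw⟩
    rw [wall_lat_iff hX hk c1]
    exact hw

/-- From a flat face, a flat face in the north or south is a translate. -/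
theorem flat_vert {v : Cube} {d : Dir} (hd : ¬ Wall (v, d)) {h : Hd} (hh : h = Hd.N ∨ h = Hd.S)
    {s : Dir} (hs : dA true eCan (v, d) h = s) (hB : ¬ Wall (nb P true eCan (v, d) h)) :
    nb P true eCan (v, d) h = (v + s.vec, d) ∧ v + s.vec + d.vec ∉ P ∧ v + s.vec ∈ P := by
  have hd2 : d.axis = 2 := by
    unfold Wall at hd
    simpa using hd
  have hax := axis_dA_flat (v := v) hd2 hh
  have ed : dirH true d (eCan (v, d)) h = s := hs
  have hs2 : s.axis ≠ 2 := by
    rw [← ed, hax]
    split_ifs <;> decide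
  have e1 : nb P true eCan (v, d) h = (nbr P (v, d) s).1 := by
    change (nbr P (v, d) (dA true eCan (v, d) h)).1 = _
    rw [hs]
  rcases nbr_cases P v d s with ⟨-, e⟩ | ⟨k1, k2, e⟩ | ⟨-, -, e⟩
  · exfalso
    rw [e1, e] at hB
    apply hB
    change s.neg.axis ≠ 2
    rw [neg_axis]
    exact hs2
  · exact ⟨by rw [e1, e], k1, k2⟩
  · exfalso
    rw [e1, e] at hB
    exact hB hs2

/-- From a wall, a flat face in the north or south is at a concave or at a convex edge. -/
theorem wall_vert {v : Cube} {d : Dir} (hw : Wall (v, d)) {h : Hd}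
    {s : Dir} (hs : dA true eCan (v, d) h = s) (hB : ¬ Wall (nb P true eCan (v, d) h)) :
    (nb P true eCan (v, d) h = (v + s.vec + d.vec, s.neg) ∧ v + s.vec + d.vec ∈ P) ∨
    (nb P true eCan (v, d) h = (v, s) ∧ v + s.vec + d.vec ∉ P ∧ v + s.vec ∉ P) := by
  have e1 : nb P true eCan (v, d) h = (nbr P (v, d) s).1 := by
    change (nbr P (v, d) (dA true eCan (v, d) h)).1 = _
    rw [hs]
  rcases nbr_cases P v d s with ⟨k1, e⟩ | ⟨-, -, e⟩ | ⟨k1, k2, e⟩
  · left
    exact ⟨by rw [e1, e], k1⟩
  · exfalso
    rw [e1, e] at hB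
    exact hB hw
  · right
    exact ⟨by rw [e1, e], k1, k2⟩

theorem onF_of_cr {A : Face} (hA : IsFace P A) {h k : Hd} (hh : h = Hd.N ∨ h = Hd.S)
    (hk : k = Hd.E ∨ k = Hd.W) : OnF P A.2 (cr true eCan A h k) := by
  refine ⟨A, dA true eCan A h, dA true eCan A k, hA, rfl, perp_dirH true _ _ (perp_eCan A) h,
    perp_dirH true _ _ (perp_eCan A) k, ?_, rfl⟩
  have key : ∀ (d e : Dir) (h k : Hd), Dir.perp d e = true → (h = Hd.N ∨ h = Hd.S) →
      (k = Hd.E ∨ k = Hd.W) → Dir.perp (dirH true d e h) (dirH true d e k) = true := by decide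
  exact key _ _ _ _ (perp_eCan A) hh hk

theorem axis2 {d : Dir} (h : d.axis = 2) : d = Dir.pz ∨ d = Dir.nz := by
  cases d <;> first | (exact absurd h (by decide)) | skip
  · exact Or.inl rfl
  · exact Or.inr rfl

theorem axis_not_wall {A : Face} (h : ¬ Wall A) : A.2.axis = 2 := by
  unfold Wall at h
  simpa using h

/-- Two flat faces with a common corner have the same normal. -/
theorem same_normal (hz : NoOpp P Dir.pz) {A B : Face}
    (fA : ¬ Wall A) (fB : ¬ Wall B) {v : Cube} (h1 : OnF P A.2 v) (h2 : OnF P B.2 v) :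
    A.2 = B.2 := by
  rcases axis2 (axis_not_wall fA) with e1 | e1 <;> rcases axis2 (axis_not_wall fB) with e2 | e2
  · rw [e1, e2]
  · exfalso
    rw [e1] at h1
    rw [e2] at h2
    exact hz v h1 h2
  · exfalso
    rw [e1] at h1
    rw [e2] at h2
    exact hz v h2 h1
  · rw [e1, e2]

theorem dA_congr {v w : Cube} {d : Dir} (he : eCan (w, d) = eCan (v, d)) (h : Hd) :
    dA true eCan (w, d) h = dA true eCan (v, d) h := by
  unfold dA
  simp only
  rw [he]

/-- **One step up, both faces flat.** -/
theorem step1 (hF : FlatEven P) (hz : NoOpp P Dir.pz) {X : Face} (hX : IsFace P X) {h k : Hd}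
    (hh : h = Hd.N ∨ h = Hd.S) (hk : k = Hd.E ∨ k = Hd.W) (c1 : Cmp P true eCan X k)
    (c2 : Cmp P true eCan X h) (c3 : Cmp P true eCan (nb P true eCan X k) h)
    (f1 : ¬ Wall (nb P true eCan X h))
    (f2 : ¬ Wall (nb P true eCan (nb P true eCan X k) h)) :
    Cmp P true eCan (nb P true eCan X h) k ∧
      nb P true eCan (nb P true eCan X h) k = nb P true eCan (nb P true eCan X k) h := by
  obtain ⟨hY, haX⟩ := lat_same hF hX hh hk c1 c2 c3 f2
  have hYf : IsFace P (nb P true eCan X k) := isFace_nbr hX
  have hX1 : IsFace P (nb P true eCan X h) := isFace_nbr hX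
  have hY1 : IsFace P (nb P true eCan (nb P true eCan X k) h) := isFace_nbr hYf
  have hlat := lateral_axis (A := X) hk
  have hkopp : k.opp = Hd.E ∨ k.opp = Hd.W := by
    rcases hk with rfl | rfl
    · exact Or.inr rfl
    · exact Or.inl rfl
  have hhopp : h.opp = Hd.N ∨ h.opp = Hd.S := by
    rcases hh with rfl | rfl
    · exact Or.inr rfl
    · exact Or.inl rfl
  -- the common corner
  have hcorn : OnF P (nb P true eCan X h).2 (cr true eCan X h k) ∧
      OnF P (nb P true eCan (nb P true eCan X k) h).2 (cr true eCan X h k) := by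
    have e1 := corner_nb c2 (h := k) (by
      rcases hh with rfl | rfl <;> rcases hk with rfl | rfl <;> decide)
    have e2 := corner_nb c1 (vert_left hh hk)
    have e3 := corner_nb c3 (h := k.opp) (by
      rcases hh with rfl | rfl <;> rcases hk with rfl | rfl <;> decide)
    constructor
    · rw [cr_comm true eCan X h k, ← e1, cr_comm]
      exact onF_of_cr hX1 hhopp hk
    · rw [← e2, cr_comm, ← e3, cr_comm]
      exact onF_of_cr hY1 hhopp hkopp
  have hnor := same_normal hz f1 f2 hcorn.1 hcorn.2
  have heX1 : eCan (nb P true eCan X h) = eCan X := (cmp_iff hh).1 c2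
  -- it suffices that the two faces are translates
  have main : ∀ v d, X = (v, d) →
      nb P true eCan (nb P true eCan X k) h =
        ((nb P true eCan X h).1 + (dA true eCan X k).vec, (nb P true eCan X h).2) := by
    rintro v d rfl
    set t := dA true eCan (v, d) k with ht
    set s := dA true eCan (v, d) h with hs
    have htz : t.vec.2.2 = 0 := vec_z_of_axis _ hlat.2
    have heY : eCan (v + t.vec, d) = eCan (v, d) := eCan_translate (by rw [add_z, htz, add_zero])
    simp only at hY
    have hsY : dA true eCan (v + t.vec, d) h = s := dA_congr heY h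
    rw [hY] at hnor f2 ⊢
    by_cases hw : Wall (v, d)
    · have hwY : Wall (v + t.vec, d) := hw
      rcases wall_vert hw hs.symm f1 with ⟨e1, m1⟩ | ⟨e1, m1, m2⟩ <;>
        rcases wall_vert hwY hsY f2 with ⟨e2, n1⟩ | ⟨e2, n1, n2⟩
      · rw [e1, e2]
        simp only [Prod.mk.injEq, and_true]
        abel
      · exfalso
        rw [e1, e2] at hnor
        have key : ∀ s : Dir, s.neg ≠ s := by decide
        exact key _ hnor
      · exfalso
        rw [e1, e2] at hnor
        have key : ∀ s : Dir, s.neg ≠ s := by decide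
        exact key _ hnor.symm
      · rw [e1, e2]
    · have hwY : ¬ Wall (v + t.vec, d) := hw
      rw [(flat_vert hw hh hs.symm f1).1, (flat_vert hwY hh hsY f2).1]
      simp only [Prod.mk.injEq, and_true]
      abel
  obtain ⟨v, d⟩ := X
  have hmain := main v d rfl
  rw [hmain] at hY1 ⊢
  have htz : (dA true eCan (v, d) k).vec.2.2 = 0 := vec_z_of_axis _ hlat.2
  refine lat_of_translate ?_ hY1 (eCan_translate (by rw [add_z, htz, add_zero]))
  exact dA_lat_congr heX1 hk

/-- **One step up to a coplanar pair.** -/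
theorem step2 (hE : EdgeOK P) (hF : FlatEven P) {X : Face} (hX : IsFace P X) {h k : Hd}
    (hh : h = Hd.N ∨ h = Hd.S) (hk : k = Hd.E ∨ k = Hd.W) (c1 : Cmp P true eCan X k)
    (c2 : Cmp P true eCan X h) (c3 : Cmp P true eCan (nb P true eCan X k) h)
    (f2 : ¬ Wall (nb P true eCan (nb P true eCan X k) h))
    (f3 : ¬ Wall (nb P true eCan (nb P true eCan (nb P true eCan X k) h) k.opp)) :
    nb P true eCan X h = nb P true eCan (nb P true eCan (nb P true eCan X k) h) k.opp := by
  obtain ⟨hY, haX⟩ := lat_same hF hX hh hk c1 c2 c3 f2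
  have hYf : IsFace P (nb P true eCan X k) := isFace_nbr hX
  have hY1 : IsFace P (nb P true eCan (nb P true eCan X k) h) := isFace_nbr hYf
  have hC : IsFace P (nb P true eCan (nb P true eCan (nb P true eCan X k) h) k.opp) :=
    isFace_nbr hY1
  have hlat := lateral_axis (A := X) hk
  have hkopp : k.opp = Hd.E ∨ k.opp = Hd.W := by
    rcases hk with rfl | rfl
    · exact Or.inr rfl
    · exact Or.inl rfl
  have hC2 := flat_lat hkopp f2 f3
  have heY1 : eCan (nb P true eCan (nb P true eCan X k) h) = eCan (nb P true eCan X k) :=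
    (cmp_iff hh).1 c3
  rw [hC2] at hC ⊢
  clear hC2
  obtain ⟨v, d⟩ := X
  simp only at hY
  set t := dA true eCan (v, d) k with ht
  have htz : t.vec.2.2 = 0 := vec_z_of_axis _ hlat.2
  have heY : eCan (v + t.vec, d) = eCan (v, d) := eCan_translate (by rw [add_z, htz, add_zero])
  have hopp : dA true eCan (nb P true eCan (nb P true eCan (v, d) k) h) k.opp = t.neg := by
    rw [dA_lat_congr heY1 hkopp, hY]
    unfold dA
    rw [dirH_opp]
    simp only
    rw [heY]
    rfl
  rw [hopp] at hC ⊢
  rw [hY] at f2 hY1 hC ⊢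
  generalize hs : dA true eCan (v, d) h = s
  have hsY : dA true eCan (v + t.vec, d) h = s := by rw [← hs]; exact dA_congr heY h
  by_cases hw : Wall (v, d)
  · have hwY : Wall (v + t.vec, d) := hw
    have e0 : nb P true eCan (v, d) h = (nbr P (v, d) s).1 := by
      change (nbr P (v, d) (dA true eCan (v, d) h)).1 = _
      rw [hs]
    rcases wall_vert hwY hsY f2 with ⟨e2, n1⟩ | ⟨e2, n1, n2⟩
    · rw [e2] at hC ⊢
      have hc1 : v + t.vec + s.vec + d.vec + t.neg.vec = v + s.vec + d.vec := by
        rw [Dir.vec_neg]; abel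
      simp only at hC ⊢
      rw [hc1] at hC ⊢
      rcases nbr_cases P v d s with ⟨-, e⟩ | ⟨m1, -, e⟩ | ⟨m1, -, e⟩
      · rw [e0, e]
      · exact absurd hC.1 m1
      · exact absurd hC.1 m1
    · rw [e2] at hC ⊢
      have hc1 : v + t.vec + t.neg.vec = v := by
        rw [Dir.vec_neg]; abel
      simp only at hC ⊢
      rw [hc1] at hC ⊢
      rcases nbr_cases P v d s with ⟨m1, e⟩ | ⟨-, m1, e⟩ | ⟨-, -, e⟩
      · exfalso
        have hds : Dir.perp s d = true := by
          have h1 := perp_dirH true _ _ (perp_eCan (v, d)) h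
          have h2 : dirH true d (eCan (v, d)) h = s := hs
          simp only at h1
          rw [h2] at h1
          have key : ∀ a b : Dir, Dir.perp a b = true → Dir.perp b a = true := by decide
          exact key _ _ h1
        exact hE v hX.1 s d hds hC.2 hX.2 m1
      · exact absurd m1 hC.2
      · rw [e0, e]
  · have hwY : ¬ Wall (v + t.vec, d) := hw
    have e2 := (flat_vert hwY hh hsY f2).1
    rw [e2] at hC ⊢
    have hc1 : v + t.vec + s.vec + t.neg.vec = v + s.vec := by
      rw [Dir.vec_neg]; abel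
    simp only at hC ⊢
    rw [hc1] at hC ⊢
    have e0 : nb P true eCan (v, d) h = (nbr P (v, d) s).1 := by
      change (nbr P (v, d) (dA true eCan (v, d) h)).1 = _
      rw [hs]
    rw [e0, nbr_flat_eq hC.1 hC.2]

/-! ### The order of the columns -/

theorem not_wall_of_both {A : Face} (h1 : Cmp P true eCan A Hd.N) (h2 : Cmp P true eCan A Hd.S) :
    ¬ Wall A := by
  intro hw
  have k1 := (cmp_wall hw (Or.inl rfl)).1 h1
  have k2 := (cmp_wall hw (Or.inr rfl)).1 h2
  rcases wall_one hw with ⟨-, h⟩ | ⟨h, -⟩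
  · exact h k2
  · exact h k1

variable {c : Cube → Bool}

theorem hgt_lt (H : IsBField P true eCan c) {A B : Face}
    (h : ReflTransGen (Up P true eCan (UB P true eCan c)) A B) (hne : A ≠ B) :
    (hgt P true eCan B : ℤ) < hgt P true eCan A := by
  rcases ReflTransGen.cases_head h with h1 | ⟨D, h1, h2⟩
  · exact absurd h1 hne
  · obtain ⟨h3, rfl⟩ := h1
    have e1 := H.xs_hgt_step h3.1 h3.2.1
    have e2 := H.xs_ht_up h2
    rw [e1]
    push_cast
    linarith

theorem ord1_aux (H : IsBField P true eCan c) (hE : EdgeOK P) (hF : FlatEven P)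
    (hz : NoOpp P Dir.pz) (hbo : ∀ A, IsFace P A → BackOut true eCan c A → ¬ Wall A)
    (hbi : ∀ A, IsFace P A → BackIn true eCan c A → ¬ Wall A) {B F : Face} (hB : IsFace P B)
    (hBo : BackOut true eCan c B) {Y : Face}
    (hY : ReflTransGen (Up P true eCan (UB P true eCan c)) Y B) :
    Y ≠ B → ∀ X, IsFace P X → Cmp P true eCan X Hd.E → nb P true eCan X Hd.E = Y →
      ReflTransGen (Up P true eCan (UB P true eCan c)) X F →
      (hgt P true eCan X : ℤ) - hgt P true eCan F < hgt P true eCan Y - hgt P true eCan B := by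
  induction hY using ReflTransGen.head_induction_on with
  | refl => exact fun h => absurd rfl h
  | @head Y Y1 h1 h2 ih =>
    intro hne X hX c1 hXY hXF
    have hlt := hgt_lt H (ReflTransGen.head h1 h2) hne
    rcases ReflTransGen.cases_head hXF with rfl | ⟨X1, g1, g2⟩
    · linarith
    · obtain ⟨hXU, rfl⟩ := g1
      obtain ⟨hYU, rfl⟩ := h1
      have sX := H.xs_hgt_step hX hXU.2.1
      have sY := H.xs_hgt_step hYU.1 hYU.2.1
      by_cases hB1 : nb P true eCan Y Hd.N = B
      · exfalso
        have hbin := H.xs_bOut_bIn hB hBo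
        have key := step2 hE hF hX (Or.inl rfl : Hd.N = Hd.N ∨ Hd.N = Hd.S) (Or.inl rfl) c1
          hXU.2.1 (by rw [hXY]; exact hYU.2.1) (by rw [hXY, hB1]; exact hbo B hB hBo)
          (by rw [hXY, hB1]; exact hbi _ (isFace_nbr hB) hbin)
        rw [hXY, hB1] at key
        exact hXU.2.2.2 (by rw [key]; exact hbin)
      · have hY1 : IsFace P (nb P true eCan Y Hd.N) := isFace_nbr hYU.1
        have hX1 : IsFace P (nb P true eCan X Hd.N) := isFace_nbr hX
        rcases ReflTransGen.cases_head h2 with h3 | ⟨Y2, h3, h4⟩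
        · exact absurd h3 hB1
        · have fY : ¬ Wall (nb P true eCan Y Hd.N) :=
            not_wall_of_both h3.1.2.1 (Cmp.back hYU.1 (perp_eCan _) hYU.2.1).1
          rcases ReflTransGen.cases_head g2 with rfl | ⟨X2, g3, g4⟩
          · have hlt1 := hgt_lt H h2 hB1
            rw [sX, sY]
            push_cast
            linarith
          · have fX : ¬ Wall (nb P true eCan X Hd.N) :=
              not_wall_of_both g3.1.2.1 (Cmp.back hX (perp_eCan _) hXU.2.1).1
            have key := step1 hF hz hX (Or.inl rfl : Hd.N = Hd.N ∨ Hd.N = Hd.S) (Or.inl rfl) c1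
              hXU.2.1 (by rw [hXY]; exact hYU.2.1) fX (by rw [hXY]; exact fY)
            rw [hXY] at key
            have := ih hB1 _ hX1 key.1 key.2 g2
            rw [sX, sY]
            push_cast
            linarith

/-- **The first order condition.** -/
theorem ord1 (H : IsBField P true eCan c) (hE : EdgeOK P) (hF : FlatEven P)
    (hz : NoOpp P Dir.pz) (hbo : ∀ A, IsFace P A → BackOut true eCan c A → ¬ Wall A)
    (hbi : ∀ A, IsFace P A → BackIn true eCan c A → ¬ Wall A) :
    ∀ A B F, IsFace P A → IsFace P B → FOut true eCan c A → BackOut true eCan c B →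
      EqvGen (Up P true eCan (UB P true eCan c)) (nb P true eCan A Hd.E) B →
      EqvGen (Up P true eCan (UB P true eCan c)) F A →
      (hgt P true eCan A : ℤ) - hgt P true eCan F <
        hgt P true eCan (nb P true eCan A Hd.E) - hgt P true eCan B := by
  intro A B F hA hB hAo hBo hAB hFA
  have hc1 := H.xs_fOut_cmp hA hAo
  have hin := H.xs_fOut_fIn hA hAo
  have hne : nb P true eCan A Hd.E ≠ B := by
    intro h
    rw [h] at hin
    have h1 := hin.1
    rw [hBo.1] at h1
    exact absurd h1 (by decide)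
  have hpath : ReflTransGen (Up P true eCan (UB P true eCan c)) (nb P true eCan A Hd.E) B := by
    rcases H.xs_comparable hAB with h | h
    · exact h
    · rw [IsBField.xs_top_of_bOut hBo h]
  rcases H.xs_comparable hFA with h | h
  · have e1 := H.xs_ht_up h
    have e2 := hgt_lt H hpath hne
    linarith
  · exact ord1_aux H hE hF hz hbo hbi hB hBo hpath hne A hA hc1 rfl h

theorem ord2_aux (H : IsBField P true eCan c) (hE : EdgeOK P) (hF : FlatEven P)
    (hz : NoOpp P Dir.pz) (hbo : ∀ A, IsFace P A → BackOut true eCan c A → ¬ Wall A)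
    (hbi : ∀ A, IsFace P A → BackIn true eCan c A → ¬ Wall A) {B G : Face} (hB : IsFace P B)
    (hBi : BackIn true eCan c B) (hBo : BackOut true eCan c (nb P true eCan B Hd.E)) {Y : Face}
    (hY : ReflTransGen (Up P true eCan (UB P true eCan c)) B Y) :
    B ≠ Y → ∀ X, IsFace P X → Cmp P true eCan X Hd.W → nb P true eCan X Hd.W = Y →
      ReflTransGen (Up P true eCan (UB P true eCan c)) G X →
      (hgt P true eCan G : ℤ) - hgt P true eCan X < hgt P true eCan B - hgt P true eCan Y := by
  induction hY with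
  | refl => exact fun h => absurd rfl h
  | @tail Y' Y h1 h2 ih =>
    intro hne X hX c1 hXY hGX
    have hlt := hgt_lt H (ReflTransGen.tail h1 h2) hne
    rcases ReflTransGen.cases_tail hGX with rfl | ⟨X', g1, g2⟩
    · linarith
    · obtain ⟨hXU, hXe⟩ := g2
      obtain ⟨hYU, hYe⟩ := h2
      have sX := H.xs_hgt_step hXU.1 hXU.2.1
      have sY := H.xs_hgt_step hYU.1 hYU.2.1
      have bX := Cmp.back hXU.1 (perp_eCan _) hXU.2.1
      have bY := Cmp.back hYU.1 (perp_eCan _) hYU.2.1
      change Cmp P true eCan (nb P true eCan X' Hd.N) Hd.S ∧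
        nb P true eCan (nb P true eCan X' Hd.N) Hd.S = X' at bX
      change Cmp P true eCan (nb P true eCan Y' Hd.N) Hd.S ∧
        nb P true eCan (nb P true eCan Y' Hd.N) Hd.S = Y' at bY
      rw [hXe] at bX sX
      rw [hYe] at bY sY
      by_cases hB1 : B = Y'
      · exfalso
        subst hB1
        have key := step2 hE hF hX (Or.inr rfl : Hd.S = Hd.N ∨ Hd.S = Hd.S) (Or.inr rfl) c1
          bX.1 (by rw [hXY]; exact bY.1) (by rw [hXY, bY.2]; exact hbi B hB hBi)
          (by rw [hXY, bY.2]; exact hbo _ (isFace_nbr hB) hBo)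
        rw [hXY, bY.2, bX.2] at key
        exact hXU.2.2.1 (by rw [key]; exact hBo)
      · rcases ReflTransGen.cases_tail h1 with h3 | ⟨Y2, h3, h4⟩
        · exact absurd h3.symm hB1
        · have fY : ¬ Wall Y' := by
            obtain ⟨h5, h6⟩ := h4
            have := (Cmp.back h5.1 (perp_eCan _) h5.2.1).1
            rw [h6] at this
            exact not_wall_of_both hYU.2.1 this
          rcases ReflTransGen.cases_tail g1 with rfl | ⟨X2, g3, g4⟩
          · have hlt1 := hgt_lt H h1 hB1
            rw [sX]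
            rw [sY] at hlt1
            push_cast at hlt1 ⊢
            linarith
          · have fX : ¬ Wall X' := by
              obtain ⟨h5, h6⟩ := g4
              have := (Cmp.back h5.1 (perp_eCan _) h5.2.1).1
              rw [h6] at this
              exact not_wall_of_both hXU.2.1 this
            have key := step1 hF hz hX (Or.inr rfl : Hd.S = Hd.N ∨ Hd.S = Hd.S) (Or.inr rfl) c1
              bX.1 (by rw [hXY]; exact bY.1) (by rw [bX.2]; exact fX)
              (by rw [hXY, bY.2]; exact fY)
            rw [hXY, bY.2, bX.2] at key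
            have := ih hB1 _ hXU.1 key.1 key.2 g1
            rw [sX] at this
            rw [sY] at this
            push_cast at this
            linarith

/-- **The second order condition.** -/
theorem ord2 (H : IsBField P true eCan c) (hE : EdgeOK P) (hF : FlatEven P)
    (hz : NoOpp P Dir.pz) (hbo : ∀ A, IsFace P A → BackOut true eCan c A → ¬ Wall A)
    (hbi : ∀ A, IsFace P A → BackIn true eCan c A → ¬ Wall A) :
    ∀ A B G, IsFace P A → IsFace P B → BackOut true eCan c A → FOut true eCan c B →
      EqvGen (Up P true eCan (UB P true eCan c)) (nb P true eCan A Hd.W) B →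
      EqvGen (Up P true eCan (UB P true eCan c)) G (nb P true eCan B Hd.E) →
      (hgt P true eCan G : ℤ) - hgt P true eCan (nb P true eCan B Hd.E) <
        hgt P true eCan (nb P true eCan A Hd.W) - hgt P true eCan B := by
  intro A B G hA hB hAo hBo hAB hGB
  have hcA := H.xs_bOut_cmp hA hAo
  have hin := H.xs_bOut_bIn hA hAo
  have hcB := H.xs_fOut_cmp hB hBo
  have hne : nb P true eCan A Hd.W ≠ B := by
    intro h
    rw [h] at hin
    have h1 := hin.1
    rw [hBo.1] at h1
    exact absurd h1 (by decide)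
  have hpath : ReflTransGen (Up P true eCan (UB P true eCan c)) (nb P true eCan A Hd.W) B := by
    rcases H.xs_comparable hAB with h | h
    · exact h
    · rw [IsBField.xs_bot_of_bIn hin h]
  have bA := Cmp.back hA (perp_eCan _) hcA
  have bB := Cmp.back hB (perp_eCan _) hcB
  change Cmp P true eCan (nb P true eCan A Hd.W) Hd.E ∧
    nb P true eCan (nb P true eCan A Hd.W) Hd.E = A at bA
  change Cmp P true eCan (nb P true eCan B Hd.E) Hd.W ∧
    nb P true eCan (nb P true eCan B Hd.E) Hd.W = B at bB
  rcases H.xs_comparable hGB with h | h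
  · have hA' : IsFace P (nb P true eCan A Hd.W) := isFace_nbr hA
    exact ord2_aux H hE hF hz hbo hbi hA' hin (by rw [bA.2]; exact hAo) hpath hne _
      (isFace_nbr hB) bB.1 bB.2 h
  · have e1 := H.xs_ht_up h
    have e2 := hgt_lt H hpath hne
    linarith

end Pool.Agent.Helper28.XS
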