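import Pool.Agent.Helper28.XS.Edges

/-!
# The colour graphs of the thick model and of the polycube (project TIE, MP_409f7f_co)
-/

set_option autoImplicit false

namespace Pool.Agent.Helper28.XS

open Pool.Agent.Helper17.UF Pool.Agent.Helper84.LD Pool.Agent.Helper16.LD
  Pool.Agent.Helper53.GP Relation

/-- No cube. -/
def o4 : B4 := (false, false, false, false)

/-- The cubes below and above agree. -/
def fl4 (l : B4) : Bool := (l.1 == l.2.1) && (l.2.2.1 == l.2.2.2)

/-- The vertex of the polycube that belongs to a vertex of the thick model. -/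
def fT (P : Finset Cube) (v : Cube) : Cube :=
  if v.1 % 4 = 0 ∧ mv P v.1 v.2.1 v.2.2 = true then (v.1 - 1, v.2)
  else if v.1 % 4 = 1 ∧ pat P v.1 v.2.1 v.2.2 = o4 then (v.1 - 1, v.2) else v

variable {P : Finset Cube} {x y z : ℤ}

theorem fT_0m (h : x % 4 = 0) (hm : mv P x y z = true) : fT P (x, y, z) = (x - 1, y, z) := by
  unfold fT
  rw [if_pos ⟨h, hm⟩]

theorem fT_0s (h : x % 4 = 0) (hm : mv P x y z = false) : fT P (x, y, z) = (x, y, z) := by
  unfold fT
  rw [if_neg (fun hc => by have h1 := hc.2; simp only at h1; rw [hm] at h1; exact absurd h1 (by decide)),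
    if_neg (fun hc => by have h1 := hc.1; simp only at h1; omega)]

theorem fT_1e (h : x % 4 = 1) (hm : pat P x y z = o4) : fT P (x, y, z) = (x - 1, y, z) := by
  unfold fT
  rw [if_neg (fun hc => by have h1 := hc.1; simp only at h1; omega), if_pos ⟨h, hm⟩]

theorem fT_1n (h : x % 4 = 1) (hm : pat P x y z ≠ o4) : fT P (x, y, z) = (x, y, z) := by
  unfold fT
  rw [if_neg (fun hc => by have h1 := hc.1; simp only at h1; omega), if_neg (fun hc => hm hc.2)]

theorem fT_23 (h : x % 4 = 2 ∨ x % 4 = 3) : fT P (x, y, z) = (x, y, z) := by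
  unfold fT
  rw [if_neg (fun hc => by have h1 := hc.1; simp only at h1; omega),
    if_neg (fun hc => by have h1 := hc.1; simp only at h1; omega)]

/-! ### Colours in terms of patterns -/

theorem base_e (hz : z % 2 = 0) : base P (x, y, z) =
    (decide (x % 4 = 1) || gt4 (pat P (x - 1) y z) (pat P x y z)) := by
  rw [Bool.eq_iff_iff, base_even (v := (x, y, z)) hz, onF_px, Bool.or_eq_true, decide_eq_true_iff]

theorem base_o (hz : z % 2 = 1) : base P (x, y, z) =
    (py4 (pat P (x - 1) y z) || py4 (pat P x y z)) := by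
  rw [Bool.eq_iff_iff, base_odd (v := (x, y, z)) hz, onF_py]

theorem cTie_congr {Q : Finset Cube} {x' y' : ℤ} (h : base P (x, y, z) = base Q (x', y', z)) :
    cTie P (x, y, z) = cTie Q (x', y', z) := by
  unfold cTie
  simp only
  rw [h]

theorem fl4_pat (hF : FlatEven P) (hz : z % 2 = 1) : fl4 (pat P x y z) = true := by
  unfold fl4 pat
  simp only
  rw [hF.oc hz, hF.oc hz]
  simp

theorem z_par (z : ℤ) : z % 2 = 0 ∨ z % 2 = 1 := by omega

/-! ### Patterns of the thick model -/

theorem pT_0 (hB : Blk P) (h : x % 4 = 0) :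
    pat (thick P) (x - 1) y z = pat P (x - 1) y z ∧
    pat (thick P) x y z = or4 (pat P (x - 1) y z) (pat P x y z) := by
  refine ⟨?_, pat_thick _ _ _ _⟩
  rw [pat_thick, hB.pat (show (x - 1 - 1) / 4 = (x - 1) / 4 by omega), or4_self]

theorem pT_1 (hB : Blk P) (h : x % 4 = 1) :
    pat (thick P) (x - 1) y z = or4 (pat P (x - 1 - 1) y z) (pat P (x - 1) y z) ∧
    pat (thick P) x y z = pat P (x - 1) y z ∧ pat P x y z = pat P (x - 1) y z := by
  have e : pat P x y z = pat P (x - 1) y z := hB.pat (by omega)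
  refine ⟨pat_thick _ _ _ _, ?_, e⟩
  rw [pat_thick, e, or4_self]

theorem pT_23 (hB : Blk P) (h : x % 4 = 2 ∨ x % 4 = 3) :
    pat (thick P) (x - 1) y z = pat P (x - 1) y z ∧
    pat (thick P) x y z = pat P (x - 1) y z ∧ pat P x y z = pat P (x - 1) y z := by
  have e : pat P x y z = pat P (x - 1) y z := hB.pat (by omega)
  refine ⟨?_, ?_, e⟩
  · rw [pat_thick, hB.pat (show (x - 1 - 1) / 4 = (x - 1) / 4 by omega), or4_self]
  · rw [pat_thick, e, or4_self]

/-- One of two neighbouring patterns is contained in the other. -/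
theorem le_or (hN : NoOpp P Dir.px) (x y z : ℤ) :
    gt4 (pat P (x - 1) y z) (pat P x y z) = false ∨ gt4 (pat P x y z) (pat P (x - 1) y z) = false := by
  have := hN.le x y z
  unfold le4 at this
  simpa using this

theorem gt4_self : ∀ l : B4, gt4 l l = false := by decide

/-! ### Two kinds of monochromatic edges -/

theorem kA1 : ∀ L R : B4, gt4 R L = false → gt4 L R = true → R ≠ o4 → cst R = false := by decide
theorem kA2 : ∀ L R : B4, fl4 L = true → fl4 R = true → gt4 R L = false → gt4 L R = true →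
    R ≠ o4 → (py4 L || py4 R) = (py4 R || py4 R) := by decide
theorem kB2 : ∀ L R : B4, fl4 L = true → fl4 R = true → gt4 L R = false → cst L = false →
    (py4 L || py4 L) = (py4 L || py4 R) := by decide

theorem mrK (hB : Blk P) (hF : FlatEven P) (hN : NoOpp P Dir.px) (h : x % 4 = 1)
    (h1 : gt4 (pat P (x - 1 - 1) y z) (pat P (x - 1) y z) = true)
    (h2 : pat P (x - 1) y z ≠ o4) : MR P (cTie P) (x - 1, y, z) (x, y, z) := by
  have h3 : gt4 (pat P (x - 1) y z) (pat P (x - 1 - 1) y z) = false := by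
    rcases le_or hN (x - 1) y z with h | h
    · rw [h1] at h; exact absurd h (by decide)
    · exact h
  refine ⟨?_, ?_⟩
  · have := mem_x (kA1 _ _ h3 h1 h2)
    rwa [sub_add_cancel] at this
  · apply cTie_congr
    rcases z_par z with hz | hz
    · rw [base_e hz, base_e hz, h1, h]
      simp
    · rw [base_o hz, base_o hz, (pT_1 (y := y) (z := z) hB h).2.2]
      exact kA2 _ _ (fl4_pat hF hz) (fl4_pat hF hz) h3 h1 h2

theorem mrK' (hB : Blk P) (hF : FlatEven P) (h : x % 4 = 0)
    (h1 : gt4 (pat P (x - 1) y z) (pat P x y z) = false) (h2 : cst (pat P (x - 1) y z) = false) :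
    MR P (cTie P) (x - 1, y, z) (x, y, z) := by
  have e : pat P (x - 1 - 1) y z = pat P (x - 1) y z := hB.pat (by omega)
  refine ⟨?_, ?_⟩
  · have := mem_x h2
    rwa [sub_add_cancel] at this
  · apply cTie_congr
    rcases z_par z with hz | hz
    · rw [base_e hz, base_e hz, h1, e, gt4_self]
      simp only [Bool.or_false, decide_eq_decide]
      omega
    · rw [base_o hz, base_o hz, e]
      exact kB2 _ _ (fl4_pat hF hz) (fl4_pat hF hz) h1 h2

/-! ### The map preserves the colours -/

theorem kC1 : ∀ L R : B4, gt4 R L = false → py4 (or4 L R) = py4 L := by decide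
theorem kC2 : ∀ L R : B4, gt4 L R = false → py4 (or4 L R) = py4 R := by decide
theorem kC3 : ∀ L : B4, triv (or4 L o4) o4 = false → gt4 L o4 = true := by decide
theorem kC4 : ∀ L : B4, or4 L o4 = L := by decide
theorem kC5 : ∀ L R : B4, fl4 L = true → fl4 R = true → (gt4 L R = false ∨ gt4 R L = false) →
    R ≠ o4 → (py4 (or4 L R) || py4 R) = (py4 R || py4 R) := by decide

theorem col_fT (hB : Blk P) (hF : FlatEven P) (hN : NoOpp P Dir.px) {v : Cube}
    (hv : v ∈ vertF (thick P)) : cTie (thick P) v = cTie P (fT P v) := by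
  obtain ⟨x, y, z⟩ := v
  rw [mem_vertF_iff] at hv
  rcases mod4 x with h | h | h | h
  · obtain ⟨e1, e2⟩ := pT_0 (y := y) (z := z) hB h
    cases hm : mv P x y z
    · rw [fT_0s h hm]
      unfold mv at hm
      apply cTie_congr
      rcases z_par z with hz | hz
      · rw [base_thick_even hB (v := (x, y, z)) hz, base_e hz, hm, Bool.or_false]
      · rw [base_o hz, base_o hz, e1, e2, kC2 _ _ hm]
    · rw [fT_0m h hm]
      unfold mv at hm
      have hm' : gt4 (pat P x y z) (pat P (x - 1) y z) = false := by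
        rcases le_or hN x y z with h | h
        · rw [hm] at h; exact absurd h (by decide)
        · exact h
      have e : pat P (x - 1 - 1) y z = pat P (x - 1) y z := hB.pat (by omega)
      apply cTie_congr
      rcases z_par z with hz | hz
      · rw [base_thick_even hB (v := (x, y, z)) hz, base_e hz, e, gt4_self, Bool.or_false]
        simp only [decide_eq_decide]
        omega
      · rw [base_o hz, base_o hz, e1, e2, kC1 _ _ hm', e]
  · obtain ⟨e1, e2, e3⟩ := pT_1 (y := y) (z := z) hB h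
    rw [e1, e2] at hv
    by_cases hm : pat P x y z = o4
    · rw [fT_1e h hm]
      rw [e3] at hm
      rw [hm] at hv e1 e2
      have hL := kC3 _ hv
      apply cTie_congr
      rcases z_par z with hz | hz
      · rw [base_thick_even hB (v := (x, y, z)) hz, base_e hz, hm, hL]
        simp [h]
      · rw [base_o hz, base_o hz, e1, e2, hm, kC4]
    · rw [fT_1n h hm]
      rw [e3] at hm
      apply cTie_congr
      rcases z_par z with hz | hz
      · rw [base_thick_even hB (v := (x, y, z)) hz, base_e hz]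
        simp [h]
      · rw [base_o hz, base_o hz, e1, e2, e3]
        exact kC5 _ _ (fl4_pat hF hz) (fl4_pat hF hz) (le_or hN (x - 1) y z) hm
  · obtain ⟨e1, e2, e3⟩ := pT_23 (y := y) (z := z) hB (Or.inl h)
    rw [fT_23 (Or.inl h)]
    apply cTie_congr
    rcases z_par z with hz | hz
    · rw [base_thick_even hB (v := (x, y, z)) hz, base_e hz, e3, gt4_self, Bool.or_false]
    · rw [base_o hz, base_o hz, e1, e2, e3]
  · obtain ⟨e1, e2, e3⟩ := pT_23 (y := y) (z := z) hB (Or.inr h)
    rw [fT_23 (Or.inr h)]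
    apply cTie_congr
    rcases z_par z with hz | hz
    · rw [base_thick_even hB (v := (x, y, z)) hz, base_e hz, e3, gt4_self, Bool.or_false]
    · rw [base_o hz, base_o hz, e1, e2, e3]

/-! ### Edges -/

/-- Edges of the thick model in the direction `x`. -/
theorem step_x (hB : Blk P) (hF : FlatEven P) (hN : NoOpp P Dir.px)
    (he : cst (pat (thick P) x y z) = false)
    (hc : cTie (thick P) (x, y, z) = cTie (thick P) (x + 1, y, z))
    (hP : cTie P (fT P (x, y, z)) = cTie P (fT P (x + 1, y, z))) :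
    MC P (cTie P) (fT P (x, y, z)) (fT P (x + 1, y, z)) := by
  rcases mod4 x with h | h | h | h
  · obtain ⟨e1, e2⟩ := pT_0 (y := y) (z := z) hB h
    rw [e2] at he
    rcases z_par z with hz | hz
    · exfalso
      unfold cTie at hc
      simp only at hc
      rw [base_thick_even hB (v := (x, y, z)) hz, base_thick_even hB (v := (x + 1, y, z)) hz] at hc
      simp only at hc
      rw [decide_eq_false (show ¬ x % 4 = 1 by omega),
        decide_eq_true (show (x + 1) % 4 = 1 by omega)] at hc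
      split_ifs at hc
      exact absurd hc (by decide)
    · have k1 : ∀ L R : B4, fl4 L = true → fl4 R = true → gt4 L R = true → gt4 R L = false →
          cst (or4 L R) = false → R = o4 ∧ cst L = false := by decide
      have k2 : ∀ L R : B4, gt4 L R = false → cst (or4 L R) = false → R ≠ o4 ∧ cst R = false := by
        decide
      have e3 : pat P (x + 1) y z = pat P x y z := hB.pat (by omega)
      cases hm : mv P x y z
      · rw [fT_0s h hm] at hP ⊢
        unfold mv at hm
        obtain ⟨a, b⟩ := k2 _ _ hm he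
        rw [fT_1n (by omega) (by rw [e3]; exact a)] at hP ⊢
        exact MC.single ⟨mem_x b, hP⟩
      · rw [fT_0m h hm] at hP ⊢
        unfold mv at hm
        have hm' : gt4 (pat P x y z) (pat P (x - 1) y z) = false := by
          rcases le_or hN x y z with h | h
          · rw [hm] at h; exact absurd h (by decide)
          · exact h
        obtain ⟨a, b⟩ := k1 _ _ (fl4_pat hF hz) (fl4_pat hF hz) hm hm' he
        rw [fT_1e (by omega) (by rw [e3]; exact a), add_sub_cancel_right] at hP ⊢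
        refine MC.single ⟨?_, hP⟩
        have := mem_x b
        rwa [sub_add_cancel] at this
  · obtain ⟨e1, e2, e3⟩ := pT_1 (y := y) (z := z) hB h
    rw [e2, ← e3] at he
    have hne : pat P x y z ≠ o4 := by
      intro hc; rw [hc] at he; exact absurd he (by decide)
    rw [fT_1n h hne, fT_23 (by omega)] at hP ⊢
    exact MC.single ⟨mem_x he, hP⟩
  · obtain ⟨e1, e2, e3⟩ := pT_23 (y := y) (z := z) hB (Or.inl h)
    rw [e2, ← e3] at he
    rw [fT_23 (by omega), fT_23 (by omega)] at hP ⊢
    exact MC.single ⟨mem_x he, hP⟩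
  · obtain ⟨e1, e2, e3⟩ := pT_23 (y := y) (z := z) hB (Or.inr h)
    rw [e2, ← e3] at he
    rw [fT_23 (by omega)] at hP ⊢
    cases hm : mv P (x + 1) y z
    · rw [fT_0s (by omega) hm] at hP ⊢
      exact MC.single ⟨mem_x he, hP⟩
    · rw [fT_0m (by omega) hm, add_sub_cancel_right]
      exact MC.refl _

/-- Two neighbouring points of a plane `x = const`, in the direction `y` or `z`. -/
structure Row (ρ : B4 → B4 → B4) (y z y' z' : ℤ) : Prop where
  mem : ∀ (Q : Finset Cube) (x : ℤ), cst (ρ (pat Q (x - 1) y z) (pat Q x y z)) = false →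
    s((x, y, z), (x, y', z')) ∈ edgeF Q
  b1 : ∀ L R : B4, gt4 R L = false → cst (ρ L (or4 L R)) = false → cst (ρ L L) = false
  b2 : ∀ L R : B4, gt4 L R = false → cst (ρ L (or4 L R)) = false → cst (ρ L R) = false
  b3 : ∀ (P : Finset Cube) (x : ℤ), gt4 (pat P x y z) (pat P (x - 1) y z) = false →
    gt4 (pat P (x - 1) y' z') (pat P x y' z') = false →
    cst (ρ (pat P (x - 1) y z) (or4 (pat P (x - 1) y z) (pat P x y z))) = false →
    cst (pat P (x - 1) y' z') = false
  b4 : ∀ (P : Finset Cube) (x : ℤ), gt4 (pat P (x - 1) y z) (pat P x y z) = false →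
    gt4 (pat P x y' z') (pat P (x - 1) y' z') = false →
    cst (ρ (pat P (x - 1) y z) (or4 (pat P (x - 1) y z) (pat P x y z))) = false →
    cst (ρ (pat P (x - 1) y z) (pat P (x - 1) y z)) = false ∧ cst (pat P (x - 1) y z) = false
  b5 : ∀ L : B4, cst (ρ (or4 L o4) o4) = false → cst (ρ L o4) = false
  b6 : ∀ (P : Finset Cube) (x : ℤ),
    (gt4 (pat P (x - 1) y z) (pat P x y z) = false ∨ gt4 (pat P x y z) (pat P (x - 1) y z) = false) →
    cst (ρ (or4 (pat P (x - 1) y z) (pat P x y z)) (pat P x y z)) = false →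
    cst (ρ (pat P x y z) (pat P x y z)) = false ∨ (gt4 (pat P (x - 1) y z) (pat P x y z) = true ∧
      gt4 (pat P (x - 1) y' z') (pat P x y' z') = true ∧
      cst (ρ (pat P (x - 1) y z) (pat P x y z)) = false)
  b7 : ∀ (P : Finset Cube) (x : ℤ), pat P x y z = o4 →
    cst (ρ (or4 (pat P (x - 1) y z) (pat P x y z)) (pat P x y z)) = false →
    gt4 (pat P (x - 1) y' z') (pat P x y' z') = true ∧
      cst (ρ (pat P (x - 1) y z) (pat P x y z)) = false
  b8 : ∀ (P : Finset Cube) (x : ℤ), pat P x y' z' = o4 →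
    cst (ρ (or4 (pat P (x - 1) y z) (pat P x y z)) (pat P x y z)) = false →
    gt4 (pat P (x - 1) y z) (pat P x y z) = true ∧
      cst (ρ (pat P (x - 1) y z) (pat P x y z)) = false

/-- Edges of the thick model in the direction `y` or `z`. -/
theorem step_r {ρ : B4 → B4 → B4} {y' z' : ℤ} (r : Row ρ y z y' z') (hB : Blk P)
    (hF : FlatEven P) (hN : NoOpp P Dir.px)
    (he : cst (ρ (pat (thick P) (x - 1) y z) (pat (thick P) x y z)) = false)
    (hP : cTie P (fT P (x, y, z)) = cTie P (fT P (x, y', z'))) :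
    MC P (cTie P) (fT P (x, y, z)) (fT P (x, y', z')) := by
  rcases mod4 x with h | h | h | h
  · obtain ⟨e1, e2⟩ := pT_0 (y := y) (z := z) hB h
    rw [e1, e2] at he
    have eL : pat P (x - 1 - 1) y z = pat P (x - 1) y z := hB.pat (by omega)
    have flip : ∀ u v : ℤ, gt4 (pat P (x - 1) u v) (pat P x u v) = true →
        gt4 (pat P x u v) (pat P (x - 1) u v) = false := by
      intro u v hm
      rcases le_or hN x u v with h | h
      · rw [hm] at h; exact absurd h (by decide)
      · exact h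
    cases hm : mv P x y z <;> cases hm' : mv P x y' z'
    · rw [fT_0s h hm, fT_0s h hm'] at hP ⊢
      exact MC.single ⟨r.mem P x (r.b2 _ _ hm he), hP⟩
    · rw [fT_0s h hm, fT_0m h hm'] at hP ⊢
      obtain ⟨a, b⟩ := r.b4 P x hm (flip _ _ hm') he
      have k := mrK' (y := y) (z := z) hB hF h hm b
      refine (MC.single k.symm).trans (MC.single ⟨r.mem P (x - 1) (by rw [eL]; exact a), ?_⟩)
      rw [k.2, hP]
    · rw [fT_0m h hm, fT_0s h hm'] at hP ⊢
      have b := r.b3 P x (flip _ _ hm) hm' he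
      have a := r.b1 _ _ (flip _ _ hm) he
      have k := mrK' (y := y') (z := z') hB hF h hm' b
      refine (MC.single ⟨r.mem P (x - 1) (by rw [eL]; exact a), ?_⟩).trans (MC.single k)
      rw [hP, k.2]
    · rw [fT_0m h hm, fT_0m h hm'] at hP ⊢
      exact MC.single ⟨r.mem P (x - 1) (by rw [eL]; exact r.b1 _ _ (flip _ _ hm) he), hP⟩
  · obtain ⟨e1, e2, e3⟩ := pT_1 (y := y) (z := z) hB h
    obtain ⟨e1', e2', e3'⟩ := pT_1 (y := y') (z := z') hB h
    rw [e1, e2] at he
    by_cases hm : pat P x y z = o4 <;> by_cases hm' : pat P x y' z' = o4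
    · rw [fT_1e h hm, fT_1e h hm'] at hP ⊢
      rw [e3] at hm
      rw [hm] at he
      have a := r.b5 _ he
      rw [← hm] at a
      exact MC.single ⟨r.mem P (x - 1) a, hP⟩
    · rw [fT_1e h hm, fT_1n h hm'] at hP ⊢
      rw [e3] at hm
      rw [e3'] at hm'
      obtain ⟨a, b⟩ := r.b7 P (x - 1) hm he
      have k := mrK (y := y') (z := z') hB hF hN h a hm'
      refine (MC.single ⟨r.mem P (x - 1) b, ?_⟩).trans (MC.single k)
      rw [hP, k.2]
    · rw [fT_1n h hm, fT_1e h hm'] at hP ⊢
      rw [e3] at hm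
      rw [e3'] at hm'
      obtain ⟨a, b⟩ := r.b8 P (x - 1) hm' he
      have k := mrK (y := y) (z := z) hB hF hN h a hm
      refine (MC.single k.symm).trans (MC.single ⟨r.mem P (x - 1) b, ?_⟩)
      rw [k.2, hP]
    · rw [fT_1n h hm, fT_1n h hm'] at hP ⊢
      rcases r.b6 P (x - 1) (le_or hN (x - 1) y z) he with a | ⟨a1, a2, a3⟩
      · refine MC.single ⟨r.mem P x (by rw [e3]; exact a), hP⟩
      · rw [e3] at hm
        rw [e3'] at hm'
        have k := mrK (y := y) (z := z) hB hF hN h a1 hm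
        have k' := mrK (y := y') (z := z') hB hF hN h a2 hm'
        refine ((MC.single k.symm).trans (MC.single ⟨r.mem P (x - 1) a3, ?_⟩)).trans (MC.single k')
        rw [k.2, hP, k'.2]
  · obtain ⟨e1, e2, e3⟩ := pT_23 (y := y) (z := z) hB (Or.inl h)
    rw [e1, e2] at he
    rw [fT_23 (by omega), fT_23 (by omega)] at hP ⊢
    exact MC.single ⟨r.mem P x (by rw [e3]; exact he), hP⟩
  · obtain ⟨e1, e2, e3⟩ := pT_23 (y := y) (z := z) hB (Or.inr h)
    rw [e1, e2] at he
    rw [fT_23 (by omega), fT_23 (by omega)] at hP ⊢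
    exact MC.single ⟨r.mem P x (by rw [e3]; exact he), hP⟩

/-! ### The two rows -/

/-- `a → b` for Booleans. -/
def le2 (a b : Bool) : Bool := !a || b

theorem gt4_row : ∀ L R : B4, gt4 L R = false →
    le2 L.1 R.1 = true ∧ le2 L.2.1 R.2.1 = true ∧ le2 L.2.2.1 R.2.2.1 = true ∧
    le2 L.2.2.2 R.2.2.2 = true := by decide

theorem row_y : Row yr y z (y + 1) z where
  mem := fun Q x h => mem_y h
  b1 := by decide
  b2 := by decide
  b3 := by
    intro P x h1 h2 h3
    have k1 := gt4_row _ _ h1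
    have k2 := gt4_row _ _ h2
    have e1 : (pat P (x - 1) (y + 1) z).1 = (pat P (x - 1) y z).2.2.1 := by simp [pat]
    have e2 : (pat P (x - 1) (y + 1) z).2.1 = (pat P (x - 1) y z).2.2.2 := by simp [pat]
    have e3 : (pat P x (y + 1) z).1 = (pat P x y z).2.2.1 := by simp [pat]
    have e4 : (pat P x (y + 1) z).2.1 = (pat P x y z).2.2.2 := by simp [pat]
    have key : ∀ (L R : B4), (le2 R.2.2.1 L.2.2.1 && le2 R.2.2.2 L.2.2.2) = true →
      (le2 L.2.2.1 R.2.2.1 && le2 L.2.2.2 R.2.2.2) = true →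
      cst (yr L (or4 L R)) = false → L.2.2.1 ≠ L.2.2.2 := by decide
    have k3 := key _ _ (by rw [k1.2.2.1, k1.2.2.2]; rfl) (by
      rw [← e1, ← e3, ← e2, ← e4, k2.1, k2.2.1]; rfl) h3
    have key2 : ∀ (L : B4) (a b : Bool), L.1 = a → L.2.1 = b → a ≠ b → cst L = false := by decide
    exact key2 _ _ _ e1 e2 k3
  b4 := by
    intro P x h1 h2 h3
    have k1 := gt4_row _ _ h1
    have k2 := gt4_row _ _ h2
    have e1 : (pat P (x - 1) (y + 1) z).1 = (pat P (x - 1) y z).2.2.1 := by simp [pat]
    have e2 : (pat P (x - 1) (y + 1) z).2.1 = (pat P (x - 1) y z).2.2.2 := by simp [pat]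
    have e3 : (pat P x (y + 1) z).1 = (pat P x y z).2.2.1 := by simp [pat]
    have e4 : (pat P x (y + 1) z).2.1 = (pat P x y z).2.2.2 := by simp [pat]
    have key : ∀ (L R : B4), le2 R.2.2.1 L.2.2.1 = true → le2 R.2.2.2 L.2.2.2 = true →
      le2 L.2.2.1 R.2.2.1 = true → le2 L.2.2.2 R.2.2.2 = true →
      cst (yr L (or4 L R)) = false → cst (yr L L) = false ∧ cst L = false := by decide
    exact key _ _ (by rw [← e1, ← e3]; exact k2.1) (by rw [← e2, ← e4]; exact k2.2.1)
      k1.2.2.1 k1.2.2.2 h3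
  b5 := by decide
  b6 := by
    intro P x h1 h2
    have e1 : (pat P (x - 1) (y + 1) z).1 = (pat P (x - 1) y z).2.2.1 := by simp [pat]
    have e2 : (pat P (x - 1) (y + 1) z).2.1 = (pat P (x - 1) y z).2.2.2 := by simp [pat]
    have e3 : (pat P x (y + 1) z).1 = (pat P x y z).2.2.1 := by simp [pat]
    have e4 : (pat P x (y + 1) z).2.1 = (pat P x y z).2.2.2 := by simp [pat]
    have key : ∀ (L R : B4), (gt4 L R = false ∨ gt4 R L = false) →
      cst (yr (or4 L R) R) = false → cst (yr R R) = false ∨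
      (gt4 L R = true ∧ ((L.2.2.1 = true ∧ R.2.2.1 = false) ∨ (L.2.2.2 = true ∧ R.2.2.2 = false)) ∧
        cst (yr L R) = false) := by decide
    rcases key _ _ h1 h2 with h | ⟨a, b, c⟩
    · exact Or.inl h
    · refine Or.inr ⟨a, ?_, c⟩
      rw [← e1, ← e2, ← e3, ← e4] at b
      have key2 : ∀ (L R : B4), ((L.1 = true ∧ R.1 = false) ∨ (L.2.1 = true ∧ R.2.1 = false)) →
        gt4 L R = true := by decide
      exact key2 _ _ b
  b7 := by
    intro P x h1 h2
    have e1 : (pat P (x - 1) (y + 1) z).1 = (pat P (x - 1) y z).2.2.1 := by simp [pat]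
    have e2 : (pat P (x - 1) (y + 1) z).2.1 = (pat P (x - 1) y z).2.2.2 := by simp [pat]
    have e3 : (pat P x (y + 1) z).1 = (pat P x y z).2.2.1 := by simp [pat]
    have e4 : (pat P x (y + 1) z).2.1 = (pat P x y z).2.2.2 := by simp [pat]
    have key : ∀ (L R : B4), R = o4 → cst (yr (or4 L R) R) = false →
      ((L.2.2.1 = true ∧ R.2.2.1 = false) ∨ (L.2.2.2 = true ∧ R.2.2.2 = false)) ∧
        cst (yr L R) = false := by decide
    obtain ⟨b, c⟩ := key _ _ h1 h2
    refine ⟨?_, c⟩
    rw [← e1, ← e2, ← e3, ← e4] at b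
    have key2 : ∀ (L R : B4), ((L.1 = true ∧ R.1 = false) ∨ (L.2.1 = true ∧ R.2.1 = false)) →
      gt4 L R = true := by decide
    exact key2 _ _ b
  b8 := by
    intro P x h1 h2
    have e3 : (pat P x (y + 1) z).1 = (pat P x y z).2.2.1 := by simp [pat]
    have e4 : (pat P x (y + 1) z).2.1 = (pat P x y z).2.2.2 := by simp [pat]
    rw [h1] at e3 e4
    have key : ∀ (L R : B4), o4.1 = R.2.2.1 → o4.2.1 = R.2.2.2 → cst (yr (or4 L R) R) = false →
      gt4 L R = true ∧ cst (yr L R) = false := by decide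
    exact key _ _ e3 e4 h2

theorem row_z : Row zr y z y (z + 1) where
  mem := fun Q x h => mem_z h
  b1 := by decide
  b2 := by decide
  b3 := by
    intro P x h1 h2 h3
    have k1 := gt4_row _ _ h1
    have k2 := gt4_row _ _ h2
    have e1 : (pat P (x - 1) y (z + 1)).1 = (pat P (x - 1) y z).2.1 := by simp [pat]
    have e2 : (pat P (x - 1) y (z + 1)).2.2.1 = (pat P (x - 1) y z).2.2.2 := by simp [pat]
    have e3 : (pat P x y (z + 1)).1 = (pat P x y z).2.1 := by simp [pat]
    have e4 : (pat P x y (z + 1)).2.2.1 = (pat P x y z).2.2.2 := by simp [pat]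
    have key : ∀ (L R : B4), (le2 R.2.1 L.2.1 && le2 R.2.2.2 L.2.2.2) = true →
      (le2 L.2.1 R.2.1 && le2 L.2.2.2 R.2.2.2) = true →
      cst (zr L (or4 L R)) = false → L.2.1 ≠ L.2.2.2 := by decide
    have k3 := key _ _ (by rw [k1.2.1, k1.2.2.2]; rfl) (by
      rw [← e1, ← e3, ← e2, ← e4, k2.1, k2.2.2.1]; rfl) h3
    have key2 : ∀ (L : B4) (a b : Bool), L.1 = a → L.2.2.1 = b → a ≠ b → cst L = false := by decide
    exact key2 _ _ _ e1 e2 k3
  b4 := by
    intro P x h1 h2 h3
    have k1 := gt4_row _ _ h1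
    have k2 := gt4_row _ _ h2
    have e1 : (pat P (x - 1) y (z + 1)).1 = (pat P (x - 1) y z).2.1 := by simp [pat]
    have e2 : (pat P (x - 1) y (z + 1)).2.2.1 = (pat P (x - 1) y z).2.2.2 := by simp [pat]
    have e3 : (pat P x y (z + 1)).1 = (pat P x y z).2.1 := by simp [pat]
    have e4 : (pat P x y (z + 1)).2.2.1 = (pat P x y z).2.2.2 := by simp [pat]
    have key : ∀ (L R : B4), le2 R.2.1 L.2.1 = true → le2 R.2.2.2 L.2.2.2 = true →
      le2 L.2.1 R.2.1 = true → le2 L.2.2.2 R.2.2.2 = true →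
      cst (zr L (or4 L R)) = false → cst (zr L L) = false ∧ cst L = false := by decide
    exact key _ _ (by rw [← e1, ← e3]; exact k2.1) (by rw [← e2, ← e4]; exact k2.2.2.1)
      k1.2.1 k1.2.2.2 h3
  b5 := by decide
  b6 := by
    intro P x h1 h2
    have e1 : (pat P (x - 1) y (z + 1)).1 = (pat P (x - 1) y z).2.1 := by simp [pat]
    have e2 : (pat P (x - 1) y (z + 1)).2.2.1 = (pat P (x - 1) y z).2.2.2 := by simp [pat]
    have e3 : (pat P x y (z + 1)).1 = (pat P x y z).2.1 := by simp [pat]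
    have e4 : (pat P x y (z + 1)).2.2.1 = (pat P x y z).2.2.2 := by simp [pat]
    have key : ∀ (L R : B4), (gt4 L R = false ∨ gt4 R L = false) →
      cst (zr (or4 L R) R) = false → cst (zr R R) = false ∨
      (gt4 L R = true ∧ ((L.2.1 = true ∧ R.2.1 = false) ∨ (L.2.2.2 = true ∧ R.2.2.2 = false)) ∧
        cst (zr L R) = false) := by decide
    rcases key _ _ h1 h2 with h | ⟨a, b, c⟩
    · exact Or.inl h
    · refine Or.inr ⟨a, ?_, c⟩
      rw [← e1, ← e2, ← e3, ← e4] at b
      have key2 : ∀ (L R : B4), ((L.1 = true ∧ R.1 = false) ∨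
        (L.2.2.1 = true ∧ R.2.2.1 = false)) → gt4 L R = true := by decide
      exact key2 _ _ b
  b7 := by
    intro P x h1 h2
    have e1 : (pat P (x - 1) y (z + 1)).1 = (pat P (x - 1) y z).2.1 := by simp [pat]
    have e2 : (pat P (x - 1) y (z + 1)).2.2.1 = (pat P (x - 1) y z).2.2.2 := by simp [pat]
    have e3 : (pat P x y (z + 1)).1 = (pat P x y z).2.1 := by simp [pat]
    have e4 : (pat P x y (z + 1)).2.2.1 = (pat P x y z).2.2.2 := by simp [pat]
    have key : ∀ (L R : B4), R = o4 → cst (zr (or4 L R) R) = false →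
      ((L.2.1 = true ∧ R.2.1 = false) ∨ (L.2.2.2 = true ∧ R.2.2.2 = false)) ∧
        cst (zr L R) = false := by decide
    obtain ⟨b, c⟩ := key _ _ h1 h2
    refine ⟨?_, c⟩
    rw [← e1, ← e2, ← e3, ← e4] at b
    have key2 : ∀ (L R : B4), ((L.1 = true ∧ R.1 = false) ∨
      (L.2.2.1 = true ∧ R.2.2.1 = false)) → gt4 L R = true := by decide
    exact key2 _ _ b
  b8 := by
    intro P x h1 h2
    have e3 : (pat P x y (z + 1)).1 = (pat P x y z).2.1 := by simp [pat]
    have e4 : (pat P x y (z + 1)).2.2.1 = (pat P x y z).2.2.2 := by simp [pat]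
    rw [h1] at e3 e4
    have key : ∀ (L R : B4), o4.1 = R.2.1 → o4.2.2.1 = R.2.2.2 → cst (zr (or4 L R) R) = false →
      gt4 L R = true ∧ cst (zr L R) = false := by decide
    exact key _ _ e3 e4 h2

/-! ### The transfer -/

theorem kV1 : ∀ L R : B4, cst R = false → triv L R = false := by decide
theorem kV2 : ∀ L R : B4, cst L = false → triv L R = false := by decide
theorem kV3 : ∀ L R : B4, cst (yr L R) = false → triv L R = false := by decide
theorem kV4 : ∀ L R : B4, cst (zr L R) = false → triv L R = false := by decide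
theorem kV5 : ∀ (L R L' R' : B4), L'.1 = L.2.2.1 → L'.2.1 = L.2.2.2 → R'.1 = R.2.2.1 →
    R'.2.1 = R.2.2.2 → cst (yr L R) = false → triv L' R' = false := by
  rintro ⟨a, b, c, d⟩ ⟨a1, b1, c1, d1⟩ ⟨e, f, g, h⟩ ⟨e1, f1, g1, h1⟩ k1 k2 k3 k4 k5
  simp only at k1 k2 k3 k4
  subst k1 k2 k3 k4
  unfold yr cst at k5
  simp only at k5
  unfold triv cst
  simp only
  revert k5
  cases e <;> cases f <;> cases e1 <;> cases f1 <;> simp
theorem kV6 : ∀ (L R L' R' : B4), L'.1 = L.2.1 → L'.2.2.1 = L.2.2.2 → R'.1 = R.2.1 →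
    R'.2.2.1 = R.2.2.2 → cst (zr L R) = false → triv L' R' = false := by
  rintro ⟨a, b, c, d⟩ ⟨a1, b1, c1, d1⟩ ⟨e, f, g, h⟩ ⟨e1, f1, g1, h1⟩ k1 k2 k3 k4 k5
  simp only at k1 k2 k3 k4
  subst k1 k2 k3 k4
  unfold zr cst at k5
  simp only at k5
  unfold triv cst
  simp only
  revert k5
  cases e <;> cases g <;> cases e1 <;> cases g1 <;> simp

/-- Monochromatic edges of the thick model give monochromatic paths. -/
theorem step (hB : Blk P) (hF : FlatEven P) (hN : NoOpp P Dir.px) {a b : Cube}
    (h : MR (thick P) (cTie (thick P)) a b) : MC P (cTie P) (fT P a) (fT P b) := by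
  obtain ⟨h1, h2⟩ := h
  have key : ∀ p q : Cube, s(a, b) = s(p, q) → p ∈ vertF (thick P) → q ∈ vertF (thick P) →
      (cTie (thick P) p = cTie (thick P) q → cTie P (fT P p) = cTie P (fT P q) →
        MC P (cTie P) (fT P p) (fT P q)) → MC P (cTie P) (fT P a) (fT P b) := by
    intro p q he hp hq hh
    rw [Sym2.eq_iff] at he
    rcases he with ⟨rfl, rfl⟩ | ⟨rfl, rfl⟩
    · refine hh h2 ?_
      rw [← col_fT hB hF hN hp, ← col_fT hB hF hN hq, h2]
    · refine (hh h2.symm ?_).symm
      rw [← col_fT hB hF hN hp, ← col_fT hB hF hN hq, h2]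
  obtain ⟨x, y, z, ⟨he, hk⟩ | ⟨he, hk⟩ | ⟨he, hk⟩⟩ := edge_kinds h1
  · refine key _ _ he ?_ ?_ (fun c1 c2 => step_x hB hF hN hk c1 c2)
    · rw [mem_vertF_iff]
      exact kV1 _ _ hk
    · rw [mem_vertF_iff, add_sub_cancel_right]
      exact kV2 _ _ hk
  · refine key _ _ he ?_ ?_ (fun _ c2 => step_r row_y hB hF hN hk c2)
    · rw [mem_vertF_iff]
      exact kV3 _ _ hk
    · rw [mem_vertF_iff]
      exact kV5 _ _ _ _ (by simp [pat]) (by simp [pat]) (by simp [pat]) (by simp [pat]) hk
  · refine key _ _ he ?_ ?_ (fun _ c2 => step_r row_z hB hF hN hk c2)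
    · rw [mem_vertF_iff]
      exact kV4 _ _ hk
    · rw [mem_vertF_iff]
      exact kV6 _ _ _ _ (by simp [pat]) (by simp [pat]) (by simp [pat]) (by simp [pat]) hk

/-- Every vertex is joined to the image of a vertex of the thick model. -/
theorem onto (hB : Blk P) (hF : FlatEven P) (hN : NoOpp P Dir.px) {p : Cube}
    (hp : p ∈ vertF P) : ∃ p' ∈ vertF (thick P), MC P (cTie P) p (fT P p') := by
  obtain ⟨x, y, z⟩ := p
  rw [mem_vertF_iff] at hp
  rcases mod4 x with h | h | h | h
  · obtain ⟨e1, e2⟩ := pT_0 (y := y) (z := z) hB h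
    cases hm : mv P x y z
    · refine ⟨(x, y, z), ?_, ?_⟩
      · rw [mem_vertF_iff, e1, e2, or4_of_le]
        · exact hp
        · unfold mv at hm
          unfold le4
          rw [hm]; rfl
      · rw [fT_0s h hm]
        exact MC.refl _
    · unfold mv at hm
      obtain ⟨g1, g2, g3⟩ := pT_1 (P := P) (x := x + 1) (y := y) (z := z) hB (by omega)
      have ex1 : x + 1 - 1 = x := by ring
      rw [ex1] at g1 g2 g3
      have hv : (x + 1, y, z) ∈ vertF (thick P) := by
        rw [mem_vertF_iff, ex1, g1, g2]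
        have k : ∀ L R : B4, gt4 L R = true → triv (or4 L R) R = false := by decide
        exact k _ _ hm
      refine ⟨(x + 1, y, z), hv, ?_⟩
      by_cases he : pat P x y z = o4
      · rw [fT_1e (by omega) (by rw [g3]; exact he), ex1]
        exact MC.refl _
      · rw [fT_1n (by omega) (by rw [g3]; exact he)]
        have := mrK (x := x + 1) (y := y) (z := z) hB hF hN (by omega) (by rw [ex1]; exact hm)
          (by rw [ex1]; exact he)
        rw [ex1] at this
        exact MC.single this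
  · obtain ⟨e1, e2, e3⟩ := pT_1 (y := y) (z := z) hB h
    rw [e3] at hp
    have k : ∀ L R : B4, triv R R = false → triv L R = false ∧ R ≠ o4 := by decide
    refine ⟨(x, y, z), ?_, ?_⟩
    · rw [mem_vertF_iff, e1, e2]
      exact (k _ _ hp).1
    · rw [fT_1n h (by rw [e3]; exact (k o4 _ hp).2)]
      exact MC.refl _
  · obtain ⟨e1, e2, e3⟩ := pT_23 (y := y) (z := z) hB (Or.inl h)
    rw [e3] at hp
    refine ⟨(x, y, z), ?_, ?_⟩
    · rw [mem_vertF_iff, e1, e2]
      exact hp
    · rw [fT_23 (Or.inl h)]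
      exact MC.refl _
  · obtain ⟨e1, e2, e3⟩ := pT_23 (y := y) (z := z) hB (Or.inr h)
    rw [e3] at hp
    refine ⟨(x, y, z), ?_, ?_⟩
    · rw [mem_vertF_iff, e1, e2]
      exact hp
    · rw [fT_23 (Or.inr h)]
      exact MC.refl _

/-- **The colour graphs of the polycube are connected if those of the thick model are.** -/
theorem transfer (hB : Blk P) (hF : FlatEven P) (hN : NoOpp P Dir.px)
    (hT : ∀ p ∈ vertF (thick P), ∀ q ∈ vertF (thick P), cTie (thick P) p = cTie (thick P) q →
      MC (thick P) (cTie (thick P)) p q) :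
    ∀ p ∈ vertF P, ∀ q ∈ vertF P, cTie P p = cTie P q → MC P (cTie P) p q := by
  intro p hp q hq hc
  obtain ⟨p', hp', h1⟩ := onto hB hF hN hp
  obtain ⟨q', hq', h2⟩ := onto hB hF hN hq
  have hcc : cTie (thick P) p' = cTie (thick P) q' := by
    rw [col_fT hB hF hN hp', col_fT hB hF hN hq', ← h1.colour, ← h2.colour, hc]
  have h3 := hT p' hp' q' hq' hcc
  have h4 : MC P (cTie P) (fT P p') (fT P q') := by
    clear h2 hcc hq' hc hq
    induction h3 with
    | refl => exact MC.refl _
    | tail _ h5 ih => exact ih.trans (step hB hF hN h5)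
  exact (h1.trans h4).trans h2.symm

end Pool.Agent.Helper28.XS
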