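import Pool.Agent.Helper28.XS.Axes
import Pool.Agent.Helper53.GP.TieMain
import Pool.Agent.Helper84.LD.DilZ

/-!
# The final theorem on polycubes with ties and screws (project TIE, MP_409f7f_co)
-/

set_option autoImplicit false

namespace Pool.Agent.Helper28.XS

open Pool.Agent.Helper17.UF Pool.Agent.Helper84.LD Pool.Agent.Helper53.GP
  Pool.Agent.Helper16.LD Relation

theorem scr_of_badZ {P : Finset Cube} (h : BadZ P) : Scr P 2 true := by
  obtain ⟨c, s1, s2, h1, h2, h3⟩ := h
  have key : ∀ a b : Dir, a.axis = 0 → b.axis = 2 → Dir.perp a b = true := by decide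
  exact ⟨c, s1, s2, _, h2, key _ _ h1 h2, by simp only [if_true], h3⟩

theorem thm_02 (hT : ConnThm) : Thm 0 2 true := by
  intro Q h1 h2 h3 h4 h5
  obtain ⟨k1, k2, k3, k4, k5, k6⟩ := dil_class h1 h2 h3
  exact tie_unfolding hT k1 k2 k3 k4 k5 (k6 _ (h4 Dir.px rfl))
    (fun h => h5 (scr_of_badZ (badZ_dil (by norm_num) h)))

/-- **Dilations by four.** No opposite squares of one axis at a lattice point, all screws of another
axis of the same handedness. -/
theorem dil_unfolding (hT : ConnThm) {a b : Fin 3} (hab : a ≠ b) (r : Bool) (Q : Finset Cube)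
    (h1 : Man Q) (h2 : SurfConn Q) (h3 : (vertF Q).card + (faceF Q).card = (edgeF Q).card + 2)
    (h4 : NoOppA Q a) (h5 : ¬ Scr Q b r) : HasEdgeUnfolding (dil 4 Q) :=
  thm_all (thm_02 hT) hab r Q h1 h2 h3 h4 h5

end Pool.Agent.Helper28.XS
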